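import Pool.Agent.R410.SQ.Strata2

/-!
# The strata of the `a`-number
-/

set_option autoImplicit false
set_option linter.all false
set_option maxHeartbeats 400000

open Polynomial

namespace Pool.Agent.R410.SQ

open Pool.Agent.R410.OR

section
variable {k : Type*} [Field k]

/-- a space of polynomials contains polynomials of different degrees -/
theorem exists_degrees {g r : ℕ} (W : Submodule k (Fin g → k)) (hW : Module.finrank k W = r) :
    ∃ q : Fin r → (Fin g → k), (∀ i, q i ∈ W) ∧ (∀ i, pv (q i) ≠ 0) ∧
      StrictMono fun i => (pv (q i)).natDegree := by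
  classical
  let D : Finset (Fin g) := Finset.univ.filter fun d => ∃ u ∈ W, pv u ≠ 0 ∧ (pv u).natDegree = d
  have hcard : r ≤ D.card := by
    let φ : W →ₗ[k] (D → k) := LinearMap.pi fun d => (LinearMap.proj d.1).comp W.subtype
    have hinj : Function.Injective φ := by
      rw [injective_iff_map_eq_zero]
      rintro ⟨u, hu⟩ h0
      rw [Submodule.mk_eq_zero]
      by_contra hne
      have hpu : pv u ≠ 0 := by
        intro h1
        apply hne
        funext j
        rw [← pv_coeff u j, h1, coeff_zero]
        rfl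
      have hlt : (pv u).natDegree < g := (natDegree_lt_iff_degree_lt hpu).2 (pv_degree u)
      have hmem : (⟨(pv u).natDegree, hlt⟩ : Fin g) ∈ D := by
        rw [Finset.mem_filter]
        exact ⟨Finset.mem_univ _, u, hu, hpu, rfl⟩
      have h1 : u ⟨(pv u).natDegree, hlt⟩ = 0 := congrFun h0 ⟨_, hmem⟩
      rw [← pv_coeff u ⟨(pv u).natDegree, hlt⟩] at h1
      exact hpu (leadingCoeff_eq_zero.1 h1)
    have h1 := LinearMap.finrank_le_finrank_of_injective hinj
    rw [hW, Module.finrank_fintype_fun_eq_card, Fintype.card_coe] at h1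
    exact h1
  obtain ⟨D', hD', hc⟩ := Finset.exists_subset_card_eq hcard
  have hq : ∀ i : Fin r, ∃ u ∈ W, pv u ≠ 0 ∧ (pv u).natDegree = (D'.orderEmbOfFin hc i : Fin g) := by
    intro i
    have := hD' (D'.orderEmbOfFin_mem hc i)
    rw [Finset.mem_filter] at this
    exact this.2
  choose q hq1 hq2 hq3 using hq
  refine ⟨q, hq1, hq2, fun i j hij => ?_⟩
  show (pv (q i)).natDegree < (pv (q j)).natDegree
  rw [hq3, hq3]
  exact (D'.orderEmbOfFin hc).strictMono hij

/-- polynomials of different degrees are linearly independent -/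
theorem coeff_zero_of_sum {t : ℕ} (T : Fin t → k[X]) (hT : ∀ i, T i ≠ 0)
    (hm : StrictMono fun i => (T i).natDegree) (c : Fin t → k) (h : ∑ i, C (c i) * T i = 0) (i : Fin t) :
    c i = 0 := by
  classical
  have h1 := degree_sum_eq_of_disjoint (fun i => C (c i) * T i) Finset.univ (by
    rintro i ⟨_, hi⟩ j ⟨_, hj⟩ hij
    have hci : c i ≠ 0 := by
      intro h0
      apply hi
      show C (c i) * T i = 0
      rw [h0, C_0, zero_mul]
    have hcj : c j ≠ 0 := by
      intro h0
      apply hj
      show C (c j) * T j = 0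
      rw [h0, C_0, zero_mul]
    show degree (C (c i) * T i) ≠ degree (C (c j) * T j)
    rw [degree_C_mul hci, degree_C_mul hcj, degree_eq_natDegree (hT i), degree_eq_natDegree (hT j)]
    intro h2
    have h3 : (T i).natDegree = (T j).natDegree := by exact_mod_cast h2
    exact hij (hm.injective h3))
  rw [h, degree_zero] at h1
  have h2 : degree (C (c i) * T i) ≤ ⊥ := by
    rw [h1]
    exact Finset.le_sup (f := fun i => degree (C (c i) * T i)) (Finset.mem_univ i)
  have h3 := degree_eq_bot.1 (le_bot_iff.1 h2)
  rcases mul_eq_zero.1 h3 with h4 | h4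
  · exact C_eq_zero.1 h4
  · exact absurd h4 (hT i)

end

section
variable {k : Type*} [Field k] {p : ℕ} [Fact p.Prime] [CharP k p]

/-- the products are in the span of the gradients -/
theorem mem_grad (hp2 : p ≠ 2) {g r : ℕ} (hg : 1 ≤ g) (hr1 : 1 ≤ r)
    {a : Fin (2 * g + 1) → k} (ha : Function.Injective a)
    (hr : (hw p g (fR a)).rank + r = g) {u w : Fin g → k}
    (hu : (hw p g (fR a)).mulVec u = 0) (hw' : (hw p g (fR a)).mulVec w = 0) :
    (fun i => (pv u).eval (a i) * (pv w).eval (a i) * ((derivative (ff a)).eval (a i))⁻¹) ∈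
    Submodule.span k (Set.range
      fun IJ : (Fin (g - r + 1) → Fin g) × (Fin (g - r + 1) → Fin g) => fun i =>
        MvPolynomial.eval a (MvPolynomial.pderiv i
          (((hw p g (fR fun i => MvPolynomial.X i)).submatrix IJ.1 IJ.2).det))) := by
  classical
  have hp := (Fact.out : p.Prime)
  obtain ⟨m, hm⟩ := hp.odd_of_ne_two hp2
  have hm1 : 1 ≤ m := by
    have := hp.two_le
    omega
  have hrk : (hw p g (fR a)).rank = g - r := by omega
  obtain ⟨v, hv, hvw⟩ := surj hg hm ha w hw'
  by_contra hnot
  obtain ⟨ψ, hψ, hΓψ⟩ := Submodule.exists_le_ker_of_notMem hnot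
  set h : Fin (2 * g + 1) → k := fun i => ψ (Pi.single i 1) with hh
  have hψe : ∀ x : Fin (2 * g + 1) → k, ψ x = ∑ i, h i * x i := by
    intro x
    conv_lhs => rw [← Finset.univ_sum_single x, map_sum]
    refine Finset.sum_congr rfl fun i _ => ?_
    have : (Pi.single i (x i) : Fin (2 * g + 1) → k) = x i • Pi.single i 1 := by
      rw [← Pi.single_smul, smul_eq_mul, mul_one]
    rw [this, map_smul, smul_eq_mul, mul_comm]
  obtain ⟨E, hE⟩ := hw_line (g := g) hm hm1 a h
  have hmin : ∀ I J : Fin (g - r + 1) → Fin g, X ^ 2 ∣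
      ((hw p g (fR fun i => C (a i) + X * C (h i))).submatrix I J).det := by
    intro I J
    have hsm : ((hw p g (fR fun i => C (a i) + X * C (h i))).submatrix I J).det =
        sub (MvPolynomial.eval a) h (((hw p g (fR fun i => MvPolynomial.X i)).submatrix I J).det) := by
      rw [RingHom.map_det, RingHom.mapMatrix_apply, ← Matrix.submatrix_map, hw_map, fR_map]
      simp only [sub_X, MvPolynomial.eval_X]
    rw [hsm, X_pow_dvd_iff]
    intro d hd
    interval_cases d
    · rw [sub_coeff_zero]
      rw [RingHom.map_det, RingHom.mapMatrix_apply, ← Matrix.submatrix_map, hw_map, fR_map]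
      simp only [MvPolynomial.eval_X]
      by_contra hdet
      have h5 := Matrix.rank_of_isUnit _ ((Matrix.isUnit_iff_isUnit_det _).2
        (isUnit_iff_ne_zero.2 hdet))
      have h6 := Matrix.rank_submatrix_le (hw p g (fR a)) I J
      have h6' : ((hw p g (fR fun i => a i)).submatrix I J).rank ≤
          (hw p g (fR a)).rank := h6
      rw [Fintype.card_fin] at h5
      omega
    · rw [sub_coeff_one', ← hψe]
      have h3 := hΓψ (Submodule.subset_span (Set.mem_range_self (I, J)))
      exact h3
  have h7 := first_order _ E _ _ hE hrk hmin hu hv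
  rw [form hg hm a h u v hv] at h7
  apply hψ
  rw [hψe, ← h7, Finset.mul_sum]
  refine Finset.sum_congr rfl fun i _ => ?_
  have h8 : (pv w).eval (a i) = -(m : k) * (derivative (ff a)).eval (a i) *
      (pp p g m a v).eval (a i) := by
    rw [← hvw]
    unfold qq
    have h9 : (ff a).eval (a i) = 0 := by
      rw [← fi_mul a i]
      simp
    rw [eval_sub, eval_mul, h9, eval_mul, eval_mul, eval_C]
    ring
  have h10 : (derivative (ff a)).eval (a i) ≠ 0 := by
    rw [ff_der_eval]
    exact fi_eval ha i
  rw [h8]
  field_simp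

/-- **The gradients of the minors at a point of corank `r` span a space of dimension at least
`2 r - 1`.** -/
theorem astrata (hp2 : p ≠ 2) {g r : ℕ} (hg : 1 ≤ g) (hr1 : 1 ≤ r)
    {a : Fin (2 * g + 1) → k} (ha : Function.Injective a)
    (hr : (hw p g (fR a)).rank + r = g) :
    2 * r - 1 ≤ Module.finrank k (Submodule.span k (Set.range
      fun IJ : (Fin (g - r + 1) → Fin g) × (Fin (g - r + 1) → Fin g) => fun i =>
        MvPolynomial.eval a (MvPolynomial.pderiv i
          (((hw p g (fR fun i => MvPolynomial.X i)).submatrix IJ.1 IJ.2).det)))) := by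
  classical
  have hker : Module.finrank k (LinearMap.ker (hw p g (fR a)).mulVecLin) = r := by
    rw [finrank_ker]
    omega
  obtain ⟨q, hq1, hq2, hq3⟩ := exists_degrees _ hker
  have hq0 : ∀ i, (hw p g (fR a)).mulVec (q i) = 0 := by
    intro i
    have := hq1 i
    rw [LinearMap.mem_ker, Matrix.mulVecLin_apply] at this
    exact this
  let α : Fin (2 * r - 1) → Fin r := fun j => ⟨(j : ℕ) - (r - 1), by have := j.2; omega⟩
  let β : Fin (2 * r - 1) → Fin r := fun j => ⟨min (j : ℕ) (r - 1), by omega⟩
  let T : Fin (2 * r - 1) → k[X] := fun j => pv (q (α j)) * pv (q (β j))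
  have hT0 : ∀ j, T j ≠ 0 := fun j => mul_ne_zero (hq2 _) (hq2 _)
  have hTn : ∀ j, (T j).natDegree = (pv (q (α j))).natDegree + (pv (q (β j))).natDegree :=
    fun j => natDegree_mul (hq2 _) (hq2 _)
  have hTm : StrictMono fun j => (T j).natDegree := by
    intro i j hij
    show (T i).natDegree < (T j).natDegree
    rw [hTn, hTn]
    have hij' : (i : ℕ) < j := hij
    have hmono := hq3.monotone
    by_cases h1 : (i : ℕ) < r - 1
    · have h2 : β i < β j := by
        show min (i : ℕ) (r - 1) < min (j : ℕ) (r - 1)
        omega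
      have h3 : α i ≤ α j := by
        show (i : ℕ) - (r - 1) ≤ (j : ℕ) - (r - 1)
        omega
      exact add_lt_add_of_le_of_lt (hmono h3) (hq3 h2)
    · have h2 : α i < α j := by
        show (i : ℕ) - (r - 1) < (j : ℕ) - (r - 1)
        omega
      have h3 : β i ≤ β j := by
        show min (i : ℕ) (r - 1) ≤ min (j : ℕ) (r - 1)
        omega
      exact add_lt_add_of_lt_of_le (hq3 h2) (hmono h3)
  set Γ := Submodule.span k (Set.range
      fun IJ : (Fin (g - r + 1) → Fin g) × (Fin (g - r + 1) → Fin g) => fun i =>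
        MvPolynomial.eval a (MvPolynomial.pderiv i
          (((hw p g (fR fun i => MvPolynomial.X i)).submatrix IJ.1 IJ.2).det))) with hΓ
  let x : Fin (2 * r - 1) → Γ := fun j =>
    ⟨fun i => (pv (q (α j))).eval (a i) * (pv (q (β j))).eval (a i) *
      ((derivative (ff a)).eval (a i))⁻¹, mem_grad hp2 hg hr1 ha hr (hq0 _) (hq0 _)⟩
  have hli : LinearIndependent k x := by
    rw [Fintype.linearIndependent_iff]
    intro c hc
    have h1 : ∑ j, C (c j) * T j = 0 := by
      refine eq_zero_of_natDegree_lt_card_of_eval_eq_zero _ ha (fun i => ?_) ?_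
      · have h2 := congrFun (congrArg Subtype.val hc) i
        have h3 : (∑ j, c j • x j : Γ).1 i = ∑ j, c j * ((pv (q (α j))).eval (a i) *
            (pv (q (β j))).eval (a i) * ((derivative (ff a)).eval (a i))⁻¹) := by
          rw [Submodule.coe_sum, Finset.sum_apply]
          rfl
        rw [h3] at h2
        have h4 : (derivative (ff a)).eval (a i) ≠ 0 := by
          rw [ff_der_eval]
          exact fi_eval ha i
        rw [eval_finset_sum]
        have h5 : (∑ j, eval (a i) (C (c j) * T j)) * ((derivative (ff a)).eval (a i))⁻¹ = 0 := by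
          rw [Finset.sum_mul]
          refine Eq.trans (Finset.sum_congr rfl fun j _ => ?_) h2
          show eval (a i) (C (c j) * (pv (q (α j)) * pv (q (β j)))) * _ = _
          rw [eval_mul, eval_C, eval_mul]
          ring
        exact (mul_eq_zero.1 h5).resolve_right (inv_ne_zero h4)
      · rw [Fintype.card_fin]
        refine lt_of_le_of_lt (natDegree_sum_le_of_forall_le (n := 2 * g) _ _ fun j _ => ?_) (by omega)
        refine (natDegree_C_mul_le _ _).trans ?_
        rw [hTn]
        have h2 : ∀ i, (pv (q i)).natDegree < g := fun i =>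
          (natDegree_lt_iff_degree_lt (hq2 i)).2 (pv_degree _)
        have := h2 (α j)
        have := h2 (β j)
        omega
    exact fun j => coeff_zero_of_sum T hT0 hTm c h1 j
  have h1 := hli.fintype_card_le_finrank
  rw [Fintype.card_fin] at h1
  exact h1

end

end Pool.Agent.R410.SQ
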