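import Mathlib

/-!
# The order of vanishing of the determinant of a matrix along a line
-/

set_option autoImplicit false
set_option linter.all false

open Polynomial

namespace Pool.Agent.R410.SQ

section
variable {K : Type*} [Field K] {g : ℕ}

/-- a basis adapted to a subspace -/
theorem exists_basis (W : Submodule K (Fin g → K)) :
    ∃ (b : Module.Basis (Fin g) K (Fin g → K)) (S : Finset (Fin g)),
      S.card = Module.finrank K W ∧ (∀ i ∈ S, b i ∈ W) ∧ (∀ w ∈ W, ∀ i, i ∉ S → b.repr w i = 0) := by
  classical
  obtain ⟨W', hW⟩ := Submodule.exists_isCompl W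
  let bW := Module.finBasis K W
  let bW' := Module.finBasis K W'
  let b0 := (bW.prod bW').map (Submodule.prodEquivOfIsCompl W W' hW)
  have hc : Fintype.card (Fin (Module.finrank K W) ⊕ Fin (Module.finrank K W')) =
      Fintype.card (Fin g) := by
    rw [← Module.finrank_eq_card_basis b0]
    simp
  let e := Fintype.equivOfCardEq hc
  refine ⟨b0.reindex e, (Finset.univ.map ⟨Sum.inl, Sum.inl_injective⟩).map e.toEmbedding,
    ?_, ?_, ?_⟩
  · simp
  · intro i hi
    rw [Finset.mem_map] at hi
    obtain ⟨j, hj, rfl⟩ := hi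
    rw [Finset.mem_map] at hj
    obtain ⟨j', _, rfl⟩ := hj
    simp only [Equiv.coe_toEmbedding, Function.Embedding.coeFn_mk, Module.Basis.reindex_apply,
      Equiv.symm_apply_apply]
    have h1 : b0 (Sum.inl j') = (bW j' : Fin g → K) := by
      simp [b0]
    rw [h1]
    exact (bW j').2
  · intro w hw i hi
    rw [Module.Basis.repr_reindex_apply]
    have h1 : ∃ j, e.symm i = Sum.inr j := by
      rcases h : e.symm i with j | j
      · exfalso
        apply hi
        rw [Finset.mem_map]
        refine ⟨Sum.inl j, ?_, ?_⟩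
        · rw [Finset.mem_map]
          exact ⟨j, Finset.mem_univ _, rfl⟩
        · rw [← h]
          simp
      · exact ⟨j, rfl⟩
    obtain ⟨j, hj⟩ := h1
    rw [hj]
    have h2 : (Submodule.prodEquivOfIsCompl W W' hW).symm w =
        ((⟨w, hw⟩ : W), (0 : W')) := by
      rw [LinearEquiv.symm_apply_eq, Submodule.coe_prodEquivOfIsCompl']
      simp
    have h3 : b0.repr w = (bW.prod bW').repr ((Submodule.prodEquivOfIsCompl W W' hW).symm w) := by
      simp [b0]
    rw [h3, h2]
    simp

/-- **The order of the determinant along a line.** -/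
theorem det_order (M E : Matrix (Fin g) (Fin g) K[X]) (M0 M1 : Matrix (Fin g) (Fin g) K)
    (hM : ∀ i j, M i j = C (M0 i j) + X * C (M1 i j) + X ^ 2 * E i j) {r : ℕ}
    (hr : Module.finrank K (LinearMap.ker M0.mulVecLin) = r) :
    X ^ (r + 1) ∣ M.det ↔
      ∃ u, u ≠ 0 ∧ M0.mulVec u = 0 ∧ ∃ c, M1.mulVec u = M0.mulVec c := by
  classical
  obtain ⟨b, S, hS, hbS, hrepr⟩ := exists_basis (LinearMap.ker M0.mulVecLin)
  rw [hr] at hS
  have hker : ∀ w, w ∈ LinearMap.ker M0.mulVecLin ↔ M0.mulVec w = 0 := by
    intro w
    rw [LinearMap.mem_ker, Matrix.mulVecLin_apply]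
  have hb0 : ∀ j ∈ S, M0.mulVec (b j) = 0 := fun j hj => (hker _).1 (hbS j hj)
  set P : Matrix (Fin g) (Fin g) K := Matrix.of fun i j => b j i with hP
  have hPdet : P.det ≠ 0 := by
    intro h0
    obtain ⟨a, ha0, ha⟩ := Matrix.exists_mulVec_eq_zero_iff.2 h0
    apply ha0
    have h1 : ∑ j, a j • b j = 0 := by
      funext i
      have := congrFun ha i
      simp only [Matrix.mulVec, dotProduct, hP, Matrix.of_apply, Pi.zero_apply] at this
      rw [Finset.sum_apply]
      simp only [Pi.smul_apply, smul_eq_mul, Pi.zero_apply]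
      rw [← this]
      exact Finset.sum_congr rfl fun j _ => mul_comm _ _
    funext j
    exact Fintype.linearIndependent_iff.1 b.linearIndependent a h1 j
  set N : Matrix (Fin g) (Fin g) K[X] := Matrix.of fun i j =>
    if j ∈ S then C (M1.mulVec (b j) i) + X * ∑ k, E i k * C (b j k)
    else C (M0.mulVec (b j) i) + X * (C (M1.mulVec (b j) i) + X * ∑ k, E i k * C (b j k)) with hN
  have hprod : M * P.map C = Matrix.of fun i j => (if j ∈ S then X else 1) * N i j := by
    ext1 i j
    rw [Matrix.mul_apply]
    have h1 : ∑ k, M i k * (P.map C) k j = C (M0.mulVec (b j) i) + X * C (M1.mulVec (b j) i) +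
        X ^ 2 * ∑ k, E i k * C (b j k) := by
      simp only [Matrix.mulVec, dotProduct, map_sum, C_mul, Finset.mul_sum]
      rw [← Finset.sum_add_distrib, ← Finset.sum_add_distrib]
      refine Finset.sum_congr rfl fun k _ => ?_
      rw [hM, Matrix.map_apply, hP, Matrix.of_apply]
      ring
    rw [h1, Matrix.of_apply, hN, Matrix.of_apply]
    by_cases hj : j ∈ S
    · rw [if_pos hj, if_pos hj, hb0 j hj, Pi.zero_apply, C_0]
      ring
    · rw [if_neg hj, if_neg hj]
      ring
  have hdet : M.det * C P.det = X ^ r * N.det := by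
    have h1 := congrArg Matrix.det hprod
    rw [Matrix.det_mul, Matrix.det_mul_row] at h1
    have h2 : (P.map C).det = C P.det := by
      rw [RingHom.map_det]
      rfl
    rw [h2] at h1
    rw [h1, Finset.prod_ite, Finset.prod_const, Finset.prod_const_one, mul_one]
    congr 2
    rw [← hS]
    congr 1
    ext j
    simp
  have hX : X ^ (r + 1) ∣ M.det ↔ X ∣ N.det := by
    have hu : IsUnit (C P.det) := isUnit_C.2 hPdet.isUnit
    rw [← hu.dvd_mul_right, hdet, pow_succ,
      mul_dvd_mul_iff_left (pow_ne_zero r (X_ne_zero : (X : K[X]) ≠ 0))]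
  set N0 : Matrix (Fin g) (Fin g) K := Matrix.of fun i j =>
    if j ∈ S then M1.mulVec (b j) i else M0.mulVec (b j) i with hN0
  have hN0det : X ∣ N.det ↔ N0.det = 0 := by
    rw [X_dvd_iff, coeff_zero_eq_eval_zero]
    have h1 : eval 0 N.det = N0.det := by
      rw [← coe_evalRingHom, RingHom.map_det]
      congr 1
      ext i j
      rw [RingHom.mapMatrix_apply, Matrix.map_apply, hN, hN0, Matrix.of_apply, Matrix.of_apply]
      by_cases hj : j ∈ S
      · rw [if_pos hj, if_pos hj]
        simp
      · rw [if_neg hj, if_neg hj]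
        simp
    rw [h1]
  have hN0a : ∀ a : Fin g → K, N0.mulVec a =
      M1.mulVec (b.equivFun.symm fun j => if j ∈ S then a j else 0) +
      M0.mulVec (b.equivFun.symm fun j => if j ∈ S then 0 else a j) := by
    intro a
    have h1 : ∀ (A : Matrix (Fin g) (Fin g) K) (x : Fin g → K) (i : Fin g),
        A.mulVec (b.equivFun.symm x) i = ∑ j, x j * A.mulVec (b j) i := by
      intro A x i
      rw [Module.Basis.equivFun_symm_apply, ← Matrix.mulVecLin_apply, map_sum, Finset.sum_apply]
      refine Finset.sum_congr rfl fun j _ => ?_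
      rw [map_smul, Pi.smul_apply, smul_eq_mul, Matrix.mulVecLin_apply]
    funext i
    rw [Pi.add_apply, h1, h1, ← Finset.sum_add_distrib]
    show ∑ j, N0 i j * a j = _
    refine Finset.sum_congr rfl fun j _ => ?_
    rw [hN0, Matrix.of_apply]
    by_cases hj : j ∈ S
    · rw [if_pos hj, if_pos hj, if_pos hj]
      ring
    · rw [if_neg hj, if_neg hj, if_neg hj]
      ring
  have hmem : ∀ x : Fin g → K, (∀ j, j ∉ S → x j = 0) → M0.mulVec (b.equivFun.symm x) = 0 := by
    intro x hx
    rw [← hker, Module.Basis.equivFun_symm_apply]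
    refine Submodule.sum_mem _ fun j _ => ?_
    by_cases hj : j ∈ S
    · exact Submodule.smul_mem _ _ (hbS j hj)
    · rw [hx j hj, zero_smul]
      exact Submodule.zero_mem _
  rw [hX, hN0det, ← Matrix.exists_mulVec_eq_zero_iff]
  constructor
  · rintro ⟨a, ha0, ha⟩
    rw [hN0a] at ha
    refine ⟨b.equivFun.symm fun j => if j ∈ S then a j else 0, ?_, ?_,
      -(b.equivFun.symm fun j => if j ∈ S then 0 else a j), ?_⟩
    · intro h0
      rw [h0, Matrix.mulVec_zero, zero_add] at ha
      apply ha0
      have h1 := (LinearEquiv.map_eq_zero_iff b.equivFun.symm).1 h0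
      have h2 := hrepr _ ((hker _).2 ha)
      funext j
      by_cases hj : j ∈ S
      · have := congrFun h1 j
        simpa [hj] using this
      · have h3 := h2 j hj
        rw [← Module.Basis.equivFun_apply, LinearEquiv.apply_symm_apply, if_neg hj] at h3
        exact h3
    · exact hmem _ fun j hj => if_neg hj
    · rw [Matrix.mulVec_neg]
      exact eq_neg_of_add_eq_zero_left ha
  · rintro ⟨u, hu0, hu, c, hc⟩
    have hur := hrepr u ((hker u).2 hu)
    refine ⟨fun j => if j ∈ S then b.equivFun u j else - b.equivFun c j, ?_, ?_⟩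
    · intro h0
      apply hu0
      rw [← LinearEquiv.map_eq_zero_iff b.equivFun]
      funext j
      by_cases hj : j ∈ S
      · have := congrFun h0 j
        simpa [hj] using this
      · rw [Module.Basis.equivFun_apply]
        exact hur j hj
    · rw [hN0a]
      have h1 : (fun j => if j ∈ S then (if j ∈ S then b.equivFun u j else - b.equivFun c j) else 0) =
          b.equivFun u := by
        funext j
        by_cases hj : j ∈ S
        · simp [hj]
        · rw [if_neg hj, Module.Basis.equivFun_apply]
          exact (hur j hj).symm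
      rw [h1, LinearEquiv.symm_apply_apply, hc]
      have h2 : M0.mulVec (b.equivFun.symm ((fun j => if j ∈ S then 0 else
          (if j ∈ S then b.equivFun u j else - b.equivFun c j)) + b.equivFun c)) = 0 := by
        refine hmem _ fun j hj => ?_
        rw [Pi.add_apply, if_neg hj, if_neg hj]
        ring
      rw [map_add, LinearEquiv.symm_apply_apply, Matrix.mulVec_add] at h2
      rw [add_comm]
      exact h2

/-- the range of a matrix is the annihilator of the left kernel -/
theorem exists_of_left (M0 : Matrix (Fin g) (Fin g) K) (w : Fin g → K)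
    (h : ∀ v, Matrix.vecMul v M0 = 0 → ∑ i, v i * w i = 0) : ∃ c, w = M0.mulVec c := by
  classical
  by_contra hcon
  have hw : w ∉ LinearMap.range M0.mulVecLin := by
    rintro ⟨c, hc⟩
    exact hcon ⟨c, hc.symm⟩
  obtain ⟨φ, hφ, hle⟩ := Submodule.exists_le_ker_of_notMem hw
  have hφe : ∀ x : Fin g → K, φ x = ∑ i, φ (Pi.single i 1) * x i := by
    intro x
    conv_lhs => rw [← Finset.univ_sum_single x, map_sum]
    refine Finset.sum_congr rfl fun i _ => ?_
    have : (Pi.single i (x i) : Fin g → K) = x i • Pi.single i 1 := by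
      rw [← Pi.single_smul, smul_eq_mul, mul_one]
    rw [this, map_smul, smul_eq_mul, mul_comm]
  apply hφ
  rw [hφe]
  refine h _ ?_
  funext j
  have h1 : φ (M0.mulVec (Pi.single j 1)) = 0 := by
    have : M0.mulVec (Pi.single j 1) ∈ LinearMap.range M0.mulVecLin := ⟨Pi.single j 1, rfl⟩
    exact hle this
  rw [hφe] at h1
  simpa [Matrix.vecMul, dotProduct] using h1

/-- the left kernel and the right kernel have the same dimension -/
theorem finrank_left (M0 : Matrix (Fin g) (Fin g) K) :
    Module.finrank K (LinearMap.ker M0.vecMulLinear) =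
      Module.finrank K (LinearMap.ker M0.mulVecLin) := by
  have h1 := LinearMap.finrank_range_add_finrank_ker M0.mulVecLin
  have h2 := LinearMap.finrank_range_add_finrank_ker M0.vecMulLinear
  have h3 : Module.finrank K (LinearMap.range M0.vecMulLinear) =
      Module.finrank K (LinearMap.range M0.mulVecLin) := by
    rw [← Matrix.mulVecLin_transpose]
    exact Matrix.rank_transpose M0
  omega

end

end Pool.Agent.R410.SQ
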