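import Pool.Agent.R410.SQ.Ker
import Pool.Agent.R410.SQ.Order

/-!
# The left kernel and the right kernel: the bijection, and the form on them
-/

set_option autoImplicit false
set_option linter.all false

open Polynomial

namespace Pool.Agent.R410.SQ

open Pool.Agent.R410.OR

section
variable {K : Type*} [Field K]

theorem divX_add {n : ℕ} (A B : K[X]) : (A + B) /ₘ X ^ n = A /ₘ X ^ n + B /ₘ X ^ n := by
  have hmon : (X ^ n : K[X]).Monic := monic_X_pow n
  refine (div_modByMonic_unique (A /ₘ X ^ n + B /ₘ X ^ n) (A %ₘ X ^ n + B %ₘ X ^ n) hmon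
    ⟨?_, ?_⟩).1
  · have h1 := modByMonic_add_div A (X ^ n : K[X])
    have h2 := modByMonic_add_div B (X ^ n : K[X])
    linear_combination h1 + h2
  · exact lt_of_le_of_lt (degree_add_le _ _)
      (max_lt (degree_modByMonic_lt _ hmon) (degree_modByMonic_lt _ hmon))

theorem divX_C_mul {n : ℕ} (c : K) (A : K[X]) : (C c * A) /ₘ X ^ n = C c * (A /ₘ X ^ n) := by
  have hmon : (X ^ n : K[X]).Monic := monic_X_pow n
  refine (div_modByMonic_unique (C c * (A /ₘ X ^ n)) (C c * (A %ₘ X ^ n)) hmon ⟨?_, ?_⟩).1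
  · have h1 := modByMonic_add_div A (X ^ n : K[X])
    linear_combination C c * h1
  · refine lt_of_le_of_lt ?_ (degree_modByMonic_lt A hmon)
    by_cases hc : c = 0
    · rw [hc, C_0, zero_mul, degree_zero]
      exact bot_le
    · rw [degree_C_mul hc]

theorem vv_add (p g : ℕ) (v w : Fin g → K) : vv p g (v + w) = vv p g v + vv p g w := by
  unfold vv
  rw [← Finset.sum_add_distrib]
  refine Finset.sum_congr rfl fun k _ => ?_
  rw [Pi.add_apply, C_add]
  ring

theorem vv_smul (p g : ℕ) (c : K) (v : Fin g → K) : vv p g (c • v) = C c * vv p g v := by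
  unfold vv
  rw [Finset.mul_sum]
  refine Finset.sum_congr rfl fun k _ => ?_
  rw [Pi.smul_apply, smul_eq_mul, C_mul]
  ring

/-- the linear map -/
noncomputable def tt {n : ℕ} (p g m : ℕ) (l : Fin n → K) : (Fin g → K) →ₗ[K] (Fin g → K) where
  toFun v := fun j => (qq m l (pp p g m l v)).coeff j
  map_add' v w := by
    funext j
    have h1 : pp p g m l (v + w) = pp p g m l v + pp p g m l w := by
      unfold pp
      rw [vv_add, add_mul, divX_add]
    have h2 : qq m l (pp p g m l (v + w)) = qq m l (pp p g m l v) + qq m l (pp p g m l w) := by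
      rw [h1]
      unfold qq
      rw [derivative_add]
      ring
    rw [h2, coeff_add]
    rfl
  map_smul' c v := by
    funext j
    have h1 : pp p g m l (c • v) = C c * pp p g m l v := by
      unfold pp
      rw [vv_smul, mul_assoc, divX_C_mul]
    have h2 : qq m l (pp p g m l (c • v)) = C c * qq m l (pp p g m l v) := by
      rw [h1]
      unfold qq
      rw [derivative_C_mul]
      ring
    rw [h2, coeff_C_mul]
    rfl

end

section
variable {K : Type*} [Field K] {p : ℕ} [Fact p.Prime] [CharP K p]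

/-- **Every element of the right kernel comes from the left kernel.** -/
theorem surj {g m : ℕ} (hg : 1 ≤ g) (hm : p = 2 * m + 1) {l : Fin (2 * g + 1) → K}
    (hl : Function.Injective l) (u : Fin g → K) (hu : (hw p g (ff l)).mulVec u = 0) :
    ∃ v, Matrix.vecMul v (hw p g (ff l)) = 0 ∧ qq m l (pp p g m l v) = pv u := by
  classical
  have hp := (Fact.out : p.Prime)
  have hpg : 3 * g ≤ p * g := Nat.mul_le_mul_right _ (by have := hp.two_le; omega)
  have hmm : (p - 1) / 2 = m := by omega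
  set M := hw p g (ff l) with hM
  set LK := LinearMap.ker M.vecMulLinear with hLK
  set RK := LinearMap.ker M.mulVecLin with hRK
  have hLKm : ∀ v, v ∈ LK ↔ Matrix.vecMul v M = 0 := by
    intro v
    rw [hLK, LinearMap.mem_ker, Matrix.vecMulLinear_apply]
  have hRKm : ∀ v, v ∈ RK ↔ M.mulVec v = 0 := by
    intro v
    rw [hRK, LinearMap.mem_ker, Matrix.mulVecLin_apply]
  have hdeg : ∀ v, v ∈ LK → pv (tt p g m l v) = qq m l (pp p g m l v) := by
    intro v hv
    obtain ⟨V, P, L, hV, hP, hVd, hG, hL, hPn, hR, hnd⟩ := exists_data hg hm l v ((hLKm v).1 hv)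
    refine pv_of (U := qq m l (pp p g m l v)) ?_
    rw [← hP]
    exact qq_degree hg hm l hVd hG hL
  set φ := (tt p g m l).domRestrict LK with hφ
  have hinj : Function.Injective φ := by
    rw [injective_iff_map_eq_zero]
    rintro ⟨v, hv⟩ h0
    rw [Submodule.mk_eq_zero]
    by_contra hv0
    have h1 : tt p g m l v = 0 := h0
    have h2 := hdeg v hv
    rw [h1] at h2
    have h3 : pv (0 : Fin g → K) = 0 := by
      unfold pv
      simp
    rw [h3] at h2
    obtain ⟨V, P, L, hV, hP, hVd, hG, hL, hPn, hR, hnd⟩ := exists_data hg hm l v ((hLKm v).1 hv)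
    rw [← hP] at h2
    have h4 := P_zero hm hl hPn h2.symm
    have h5 := hnd hv0
    rw [hG, h4, mul_zero, zero_add] at h5
    omega
  have hle : LinearMap.range φ ≤ RK := by
    rintro _ ⟨⟨v, hv⟩, rfl⟩
    rw [hRKm]
    funext i
    show M.mulVec (tt p g m l v) i = 0
    rw [hM, hw_mulVec, hdeg v hv, hmm]
    exact qq_exact hm l _ _
  have heq : LinearMap.range φ = RK := by
    refine Submodule.eq_of_le_of_finrank_eq hle ?_
    rw [LinearMap.finrank_range_of_inj hinj]
    exact finrank_left M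
  have hu' : u ∈ LinearMap.range φ := by
    rw [heq, hRKm]
    exact hu
  obtain ⟨⟨v, hv⟩, hvu⟩ := hu'
  refine ⟨v, (hLKm v).1 hv, ?_⟩
  rw [← hdeg v hv]
  congr 1

/-- the derivative of the matrix in the direction `h` -/
noncomputable def m1 {g n : ℕ} (p m : ℕ) (l h : Fin n → K) : Matrix (Fin g) (Fin g) K :=
  Matrix.of fun i j => (X ^ ((j : ℕ) + 1) *
    (-C (m : K) * (ff l ^ (m - 1) * ∑ a, C (h a) * fi l a))).coeff (p * ((i : ℕ) + 1))

theorem m1_mulVec {g n : ℕ} (m : ℕ) (l h : Fin n → K) (u : Fin g → K) (i : Fin g) :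
    (m1 p m l h).mulVec u i = (pv u *
      (-C (m : K) * (ff l ^ (m - 1) * ∑ a, C (h a) * fi l a))).coeff (p * ((i : ℕ) + 1) - 1) := by
  have hp := (Fact.out : p.Prime).pos
  have h1 : 1 ≤ p * ((i : ℕ) + 1) := Nat.mul_pos hp (Nat.succ_pos _)
  set F : K[X] := -C (m : K) * (ff l ^ (m - 1) * ∑ a, C (h a) * fi l a) with hF
  have h2 : (pv u * F).coeff (p * ((i : ℕ) + 1) - 1) = (X * (pv u * F)).coeff (p * ((i : ℕ) + 1)) := by
    conv_rhs => rw [← Nat.sub_add_cancel h1]
    rw [coeff_X_mul]
  rw [h2]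
  unfold pv
  rw [Finset.sum_mul, Finset.mul_sum, finset_sum_coeff]
  show ∑ j : Fin g, (X ^ ((j : ℕ) + 1) * F).coeff (p * ((i : ℕ) + 1)) * u j = _
  refine Finset.sum_congr rfl fun j _ => ?_
  rw [mul_comm _ (u j), ← coeff_C_mul]
  congr 1
  ring

/-- **The form on the kernels in the direction `h`.** -/
theorem form {g m : ℕ} (hg : 1 ≤ g) (hm : p = 2 * m + 1) (l h : Fin (2 * g + 1) → K)
    (u v : Fin g → K) (hv : Matrix.vecMul v (hw p g (ff l)) = 0) :
    ∑ k, v k * (m1 p m l h).mulVec u k =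
      -(m : K) * ∑ a, h a * ((pv u).eval (l a) * (pp p g m l v).eval (l a)) := by
  classical
  obtain ⟨V, P, L, hV, hP, hVd, hG, hL, hPn, hR, hnd⟩ := exists_data hg hm l v hv
  rw [← hP]
  have h1 : ∑ k, v k * (m1 p m l h).mulVec u k = (V * (pv u *
      (-C (m : K) * (ff l ^ (m - 1) * ∑ a, C (h a) * fi l a)))).coeff (p * g - 1) := by
    rw [hR]
    exact Finset.sum_congr rfl fun k _ => by rw [m1_mulVec]
  have h2 : V * (pv u * (-C (m : K) * (ff l ^ (m - 1) * ∑ a, C (h a) * fi l a))) =
      ∑ a, C (-(m : K) * h a) * (V * (pv u * (ff l ^ (m - 1) * fi l a))) := by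
    rw [Finset.mul_sum, Finset.mul_sum, Finset.mul_sum, Finset.mul_sum]
    refine Finset.sum_congr rfl fun a _ => ?_
    rw [C_mul, C_neg]
    ring
  rw [h1, h2, finset_sum_coeff, Finset.mul_sum]
  refine Finset.sum_congr rfl fun a _ => ?_
  rw [coeff_C_mul, pairing hg hm l hG hL a (pv_degree u)]
  ring

end

end Pool.Agent.R410.SQ
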