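import Pool.Agent.R410.SQ.Line

/-!
# The determinant of the Hasse-Witt matrix is squarefree away from the discriminant
-/

set_option autoImplicit false
set_option linter.all false

open Polynomial

namespace Pool.Agent.R410.SQ

open Pool.Agent.R410.OR

/-- **An irreducible polynomial over an algebraically closed field of characteristic `p` does not
divide all of its derivatives.** -/
theorem exists_pderiv {σ k : Type*} [Field k] [IsAlgClosed k] (p : ℕ) [Fact p.Prime] [CharP k p]
    {q : MvPolynomial σ k} (hq : Irreducible q) : ∃ i, ¬ q ∣ MvPolynomial.pderiv i q := by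
  classical
  have hp := (Fact.out : p.Prime)
  by_contra hcon
  push Not at hcon
  have h0 : ∀ i, MvPolynomial.pderiv i q = 0 := by
    intro i
    by_contra hne
    have h1 := MvPolynomial.totalDegree_le_of_dvd_of_isDomain (hcon i) hne
    obtain ⟨m, hm, hms⟩ := Finset.exists_mem_eq_sup (MvPolynomial.pderiv i q).support
      (MvPolynomial.support_nonempty.2 hne) (fun s => s.sum fun _ e => e)
    have h2 : (MvPolynomial.pderiv i q).totalDegree = m.sum fun _ e => e := hms
    have h3 : m + Finsupp.single i 1 ∈ q.support := by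
      rw [MvPolynomial.mem_support_iff] at hm ⊢
      rw [MvPolynomial.coeff_pderiv] at hm
      exact left_ne_zero_of_mul hm
    have h4 := MvPolynomial.le_totalDegree h3
    have h5 : ((m + Finsupp.single i 1).sum fun _ e => e) = (m.sum fun _ e => e) + 1 := by
      rw [Finsupp.sum_add_index' (fun _ => rfl) (fun _ _ _ => rfl), Finsupp.sum_single_index rfl]
    omega
  have hdiv : ∀ m ∈ q.support, ∀ i, p ∣ m i := by
    intro m hm i
    by_cases hi : m i = 0
    · rw [hi]
      exact dvd_zero p
    · have h1 : m - Finsupp.single i 1 + Finsupp.single i 1 = m := by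
        apply tsub_add_cancel_of_le
        rw [Finsupp.single_le_iff]
        omega
      have h2 := MvPolynomial.coeff_pderiv (i := i) q (m - Finsupp.single i 1)
      rw [h0 i, MvPolynomial.coeff_zero, h1] at h2
      have h3 := (mul_eq_zero.1 h2.symm).resolve_left (MvPolynomial.mem_support_iff.1 hm)
      have h4 : (m - Finsupp.single i 1 : σ →₀ ℕ) i + 1 = m i := by
        have := DFunLike.congr_fun h1 i
        rw [Finsupp.add_apply, Finsupp.single_eq_same] at this
        exact this
      rw [← h4, ← CharP.cast_eq_zero_iff k p]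
      push_cast
      exact h3
  choose root hroot using fun a : k => IsAlgClosed.exists_pow_nat_eq a hp.pos
  have h6 : q = (∑ m ∈ q.support,
      MvPolynomial.monomial (m.mapRange (· / p) (Nat.zero_div p)) (root (q.coeff m))) ^ p := by
    rw [sum_pow_char]
    conv_lhs => rw [q.as_sum]
    refine Finset.sum_congr rfl fun m hm => ?_
    have h7 : p • m.mapRange (· / p) (Nat.zero_div p) = m := by
      ext i
      rw [Finsupp.smul_apply, Finsupp.mapRange_apply, smul_eq_mul,
        Nat.mul_div_cancel' (hdiv m hm i)]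
    rw [MvPolynomial.monomial_pow, hroot, h7]
  rw [h6] at hq
  exact not_irreducible_pow hp.one_lt.ne' hq

section
variable {k : Type*} [Field k] {n : ℕ}

/-- the substitution of a line -/
noncomputable def sub {K : Type*} [Field K] (φ : MvPolynomial (Fin n) k →+* K) (h : Fin n → K) :
    MvPolynomial (Fin n) k →+* K[X] :=
  MvPolynomial.eval₂Hom ((C : K →+* K[X]).comp (φ.comp MvPolynomial.C))
    fun i => C (φ (MvPolynomial.X i)) + X * C (h i)

theorem sub_X {K : Type*} [Field K] (φ : MvPolynomial (Fin n) k →+* K) (h : Fin n → K) (i : Fin n) :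
    sub φ h (MvPolynomial.X i) = C (φ (MvPolynomial.X i)) + X * C (h i) := by
  unfold sub
  rw [MvPolynomial.coe_eval₂Hom, MvPolynomial.eval₂_X]

theorem sub_C {K : Type*} [Field K] (φ : MvPolynomial (Fin n) k →+* K) (h : Fin n → K) (a : k) :
    sub φ h (MvPolynomial.C a) = C (φ (MvPolynomial.C a)) := by
  unfold sub
  rw [MvPolynomial.coe_eval₂Hom, MvPolynomial.eval₂_C]
  rfl

theorem sub_coeff_zero {K : Type*} [Field K] (φ : MvPolynomial (Fin n) k →+* K) (h : Fin n → K)
    (F : MvPolynomial (Fin n) k) : (sub φ h F).coeff 0 = φ F := by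
  have h1 : (constantCoeff : K[X] →+* K).comp (sub φ h) = φ := by
    refine MvPolynomial.ringHom_ext (fun a => ?_) fun i => ?_
    · rw [RingHom.comp_apply, sub_C]
      simp
    · rw [RingHom.comp_apply, sub_X]
      simp
  exact DFunLike.congr_fun h1 F

theorem sub_coeff_one {K : Type*} [Field K] (φ : MvPolynomial (Fin n) k →+* K) (i : Fin n)
    (F : MvPolynomial (Fin n) k) :
    (sub φ (Pi.single i 1) F).coeff 1 = φ (MvPolynomial.pderiv i F) := by
  classical
  induction F using MvPolynomial.induction_on with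
  | C a => rw [sub_C, MvPolynomial.pderiv_C, map_zero, coeff_C, if_neg one_ne_zero]
  | add F G hF hG => rw [map_add, coeff_add, hF, hG, map_add, map_add]
  | mul_X F j hF =>
    rw [map_mul, sub_X, MvPolynomial.pderiv_mul, map_add, map_mul, map_mul, ← hF]
    have h1 : (sub φ (Pi.single i 1) F * (C (φ (MvPolynomial.X j)) +
        X * C ((Pi.single i 1 : Fin n → K) j))).coeff 1 =
        (sub φ (Pi.single i 1) F).coeff 1 * φ (MvPolynomial.X j) +
        (sub φ (Pi.single i 1) F).coeff 0 * (Pi.single i 1 : Fin n → K) j := by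
      rw [mul_add, coeff_add, coeff_mul_C, mul_left_comm, coeff_X_mul, coeff_mul_C]
    rw [h1, sub_coeff_zero]
    congr 2
    rw [MvPolynomial.pderiv_X]
    by_cases hij : j = i
    · rw [hij, Pi.single_eq_same, Pi.single_eq_same, map_one]
    · rw [Pi.single_eq_of_ne hij, Pi.single_eq_of_ne hij, map_zero]

end

section
variable {k : Type*} [Field k]

/-- the determinant of the Hasse-Witt matrix of `y² = (x - a_0) ⋯ (x - a_{2g})` -/
noncomputable def dd (k : Type*) [Field k] (p g : ℕ) : MvPolynomial (Fin (2 * g + 1)) k :=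
  (hw p g (fR fun i => MvPolynomial.X i)).det

theorem sub_dd {K : Type*} [Field K] {p g : ℕ}
    (φ : MvPolynomial (Fin (2 * g + 1)) k →+* K) (h : Fin (2 * g + 1) → K) :
    sub φ h (dd k p g) = dl p g (fun i => φ (MvPolynomial.X i)) h := by
  unfold dd dl
  rw [hw_det_map]
  congr 2
  unfold fR
  rw [Polynomial.map_prod]
  refine Finset.prod_congr rfl fun i _ => ?_
  rw [Polynomial.map_sub, map_X, map_C, sub_X]

/-- **The determinant of the Hasse-Witt matrix is squarefree away from the discriminant.** -/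
theorem main [IsAlgClosed k] {p : ℕ} [Fact p.Prime] [CharP k p] (hp2 : p ≠ 2) {g : ℕ} (hg : 1 ≤ g)
    {q : MvPolynomial (Fin (2 * g + 1)) k} (hq : Irreducible q) (hqd : q ^ 2 ∣ dd k p g) :
    ∃ i j, i ≠ j ∧ q ∣ MvPolynomial.X i - MvPolynomial.X j := by
  classical
  have hp := (Fact.out : p.Prime)
  obtain ⟨m, hm⟩ := hp.odd_of_ne_two hp2
  by_contra hcon
  push Not at hcon
  have hqp : Prime q := hq.prime
  haveI : (Ideal.span {q}).IsPrime := (Ideal.span_singleton_prime hqp.ne_zero).2 hqp
  let A := MvPolynomial (Fin (2 * g + 1)) k ⧸ Ideal.span {q}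
  let K := FractionRing A
  let φ : MvPolynomial (Fin (2 * g + 1)) k →+* K :=
    (algebraMap A K).comp (Ideal.Quotient.mk (Ideal.span {q}))
  have hφ : ∀ F, φ F = 0 ↔ q ∣ F := by
    intro F
    show algebraMap A K (Ideal.Quotient.mk _ F) = 0 ↔ _
    rw [FaithfulSMul.algebraMap_eq_zero_iff, Ideal.Quotient.eq_zero_iff_mem,
      Ideal.mem_span_singleton]
  haveI : CharP K p := charP_of_injective_ringHom (φ.comp MvPolynomial.C).injective p
  have hl : Function.Injective fun i => φ (MvPolynomial.X i) := by
    intro i j hij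
    by_contra hne
    apply hcon i j hne
    rw [← hφ, map_sub]
    exact sub_eq_zero.2 hij
  obtain ⟨r, hr⟩ : ∃ r, Module.finrank K (LinearMap.ker
    (hw p g (ff fun i => φ (MvPolynomial.X i))).mulVecLin) = r := ⟨_, rfl⟩
  obtain ⟨h, hh⟩ := line_general hg hm hl hr
  rw [← sub_dd] at hh
  have hd0 : dd k p g ≠ 0 := by
    intro h0
    apply hh
    rw [h0, map_zero]
    exact dvd_zero _
  obtain ⟨e, u, hu, he⟩ := WfDvdMonoid.max_power_factor hd0 hq
  have he2 : 2 ≤ e := by
    by_contra hlt
    apply hu
    have h1 : q ^ e * q ∣ q ^ e * u := by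
      rw [← pow_succ, ← he]
      exact (pow_dvd_pow q (by omega)).trans hqd
    exact (mul_dvd_mul_iff_left (pow_ne_zero e hqp.ne_zero)).1 h1
  have hX : ∀ h : Fin (2 * g + 1) → K, X ∣ sub φ h q := by
    intro h
    rw [X_dvd_iff, sub_coeff_zero, hφ]
  have her : e ≤ r := by
    by_contra hlt
    apply hh
    rw [he, map_mul, map_pow]
    exact ((pow_dvd_pow X (by omega)).trans (pow_dvd_pow_of_dvd (hX h) e)).trans (dvd_mul_right _ _)
  obtain ⟨i, hi⟩ := exists_pderiv p hq
  have h1 := line_single hg hm (fun i => φ (MvPolynomial.X i)) hr (by omega) i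
  rw [← sub_dd, he, map_mul, map_pow] at h1
  have h2 : ¬ X ∣ sub φ (Pi.single i 1) u := by
    rw [X_dvd_iff, sub_coeff_zero, hφ]
    exact hu
  have h3 := prime_X.pow_dvd_of_dvd_mul_right _ h2 h1
  obtain ⟨W, hW⟩ := hX (Pi.single i 1)
  have hW0 : ¬ X ∣ W := by
    rw [X_dvd_iff]
    have h4 := sub_coeff_one φ i q
    rw [hW, coeff_X_mul] at h4
    rw [h4, hφ]
    exact hi
  rw [hW, mul_pow] at h3
  have h5 := prime_X.pow_dvd_of_dvd_mul_right _ (fun h => hW0 (prime_X.dvd_of_dvd_pow h)) h3
  have h6 := (pow_dvd_pow_iff (X_ne_zero : (X : K[X]) ≠ 0) not_isUnit_X).1 h5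
  omega

end

end Pool.Agent.R410.SQ
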