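import Pool.Agent.R410.OR.HW

/-!
# The left kernel and the right kernel of the Hasse-Witt matrix
-/

set_option autoImplicit false
set_option linter.all false

open Polynomial

namespace Pool.Agent.R410.SQ

open Pool.Agent.R410.OR

section
variable {K : Type*} [Field K] {p : ℕ} [Fact p.Prime] [CharP K p]

theorem two_m {m : ℕ} (hm : p = 2 * m + 1) : (2 * m + 1 : K) = 0 := by
  have h := CharP.cast_eq_zero K p
  rw [hm] at h
  push_cast at h
  exact h

/-- the polynomial `f` -/
noncomputable def ff {n : ℕ} (l : Fin n → K) : K[X] := ∏ i, (X - C (l i))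

omit [Fact p.Prime] [CharP K p] in
theorem ff_monic {n : ℕ} (l : Fin n → K) : (ff l).Monic :=
  monic_prod_of_monic _ _ fun i _ => monic_X_sub_C _

omit [Fact p.Prime] [CharP K p] in
theorem ff_deg {n : ℕ} (l : Fin n → K) : (ff l).natDegree = n := by
  unfold ff
  rw [natDegree_prod_of_monic _ _ fun i _ => monic_X_sub_C _]
  simp

/-- the polynomial without the factor of the index `i` -/
noncomputable def fi {n : ℕ} (l : Fin n → K) (i : Fin n) : K[X] :=
  ∏ j ∈ Finset.univ.erase i, (X - C (l j))

omit [Fact p.Prime] [CharP K p] in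
theorem fi_mul {n : ℕ} (l : Fin n → K) (i : Fin n) : (X - C (l i)) * fi l i = ff l :=
  Finset.mul_prod_erase Finset.univ (fun j => X - C (l j)) (Finset.mem_univ i)

omit [Fact p.Prime] [CharP K p] in
theorem fi_eval {n : ℕ} {l : Fin n → K} (hl : Function.Injective l) (i : Fin n) :
    (fi l i).eval (l i) ≠ 0 := by
  unfold fi
  rw [eval_prod, Finset.prod_ne_zero_iff]
  intro j hj
  rw [eval_sub, eval_X, eval_C]
  exact sub_ne_zero.2 fun h => Finset.ne_of_mem_erase hj (hl h).symm

omit [Fact p.Prime] [CharP K p] in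
theorem ff_der_eval {n : ℕ} (l : Fin n → K) (i : Fin n) :
    (derivative (ff l)).eval (l i) = (fi l i).eval (l i) := by
  rw [← fi_mul l i, derivative_mul]
  simp

/-- the polynomial of an element of the left kernel -/
noncomputable def vv {K : Type*} [Field K] (p g : ℕ) (v : Fin g → K) : K[X] :=
  ∑ k : Fin g, C (v k) * X ^ (p * (g - 1 - (k : ℕ)))

/-- the quotient of the product with the power of `f` -/
noncomputable def pp {K : Type*} [Field K] {n : ℕ} (p g m : ℕ) (l : Fin n → K) (v : Fin g → K) :
    K[X] := (vv p g v * ff l ^ m) /ₘ X ^ (p * g)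

/-- the data of an element of the left kernel -/
theorem exists_data {g m : ℕ} (hg : 1 ≤ g) (hm : p = 2 * m + 1) (l : Fin (2 * g + 1) → K)
    (v : Fin g → K) (hv : Matrix.vecMul v (hw p g (ff l)) = 0) :
    ∃ V P L : K[X], V = vv p g v ∧ P = pp p g m l v ∧
      derivative V = 0 ∧ V * ff l ^ m = X ^ (p * g) * P + L ∧
      L.natDegree ≤ p * g - g - 1 ∧ P.natDegree < m * (2 * g + 1) ∧
      (∀ R : K[X], (V * R).coeff (p * g - 1) = ∑ k : Fin g, v k * R.coeff (p * ((k : ℕ) + 1) - 1)) ∧
      (v ≠ 0 → p * g - g ≤ (V * ff l ^ m).natDegree) := by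
  classical
  have hp := (Fact.out : p.Prime)
  have hm1 : 1 ≤ m := by
    have := hp.two_le
    omega
  have hmm : (p - 1) / 2 = m := by omega
  set V : K[X] := ∑ k : Fin g, C (v k) * X ^ (p * (g - 1 - (k : ℕ))) with hV
  have hVd : derivative V = 0 := by
    rw [hV, derivative_sum]
    refine Finset.sum_eq_zero fun k _ => ?_
    rw [derivative_C_mul_X_pow]
    push_cast
    rw [CharP.cast_eq_zero K p]
    simp
  have hVR : ∀ R : K[X], (V * R).coeff (p * g - 1) =
      ∑ k : Fin g, v k * R.coeff (p * ((k : ℕ) + 1) - 1) := by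
    intro R
    rw [hV, Finset.sum_mul, finset_sum_coeff]
    refine Finset.sum_congr rfl fun k _ => ?_
    have h1 : p * g - 1 = p * ((k : ℕ) + 1) - 1 + p * (g - 1 - (k : ℕ)) := by
      have hk := k.2
      have h2 : p * g = p * ((k : ℕ) + 1) + p * (g - 1 - (k : ℕ)) := by
        rw [← mul_add]
        congr 1
        omega
      have h3 : 1 ≤ p * ((k : ℕ) + 1) := Nat.mul_pos hp.pos (Nat.succ_pos _)
      omega
    rw [mul_assoc, coeff_C_mul, h1, coeff_X_pow_mul]
  have hVn : V.natDegree ≤ p * (g - 1) := by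
    rw [hV]
    refine natDegree_sum_le_of_forall_le _ _ fun k _ => (natDegree_C_mul_X_pow_le _ _).trans ?_
    exact Nat.mul_le_mul_left _ (by omega)
  set G : K[X] := V * ff l ^ m with hG
  have hfm : (ff l ^ m).natDegree = m * (2 * g + 1) := by
    rw [(ff_monic l).natDegree_pow, ff_deg]
  have hGn : G.natDegree ≤ p * (g - 1) + m * (2 * g + 1) :=
    natDegree_mul_le.trans (by rw [hfm]; exact Nat.add_le_add_right hVn _)
  have hmon : (X ^ (p * g) : K[X]).Monic := monic_X_pow _
  set P : K[X] := G /ₘ X ^ (p * g) with hP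
  set L : K[X] := G %ₘ X ^ (p * g) with hL
  have hGe : G = X ^ (p * g) * P + L := by
    rw [add_comm]
    exact (modByMonic_add_div G (X ^ (p * g))).symm
  have hpg : p * (g - 1) + p = p * g := by
    obtain ⟨g', rfl⟩ : ∃ g', g = g' + 1 := ⟨g - 1, by omega⟩
    simp
    ring
  have hgp : g ≤ p * g - 1 := by
    have : 3 * g ≤ p * g := Nat.mul_le_mul_right _ (by omega)
    omega
  have hLn : L.natDegree < p * g := by
    have h1 : L.degree < (X ^ (p * g) : K[X]).degree := degree_modByMonic_lt _ hmon
    rw [degree_X_pow] at h1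
    by_cases hL0 : L = 0
    · rw [hL0, natDegree_zero]; omega
    · exact (natDegree_lt_iff_degree_lt hL0).2 h1
  have hLc : ∀ e, e < p * g → L.coeff e = G.coeff e := by
    intro e he
    rw [hGe, coeff_add, coeff_X_pow_mul', if_neg (by omega), zero_add]
  have hzero : ∀ j, j < g → G.coeff (p * g - 1 - j) = 0 := by
    intro j hj
    have h1 := congrFun hv ⟨j, hj⟩
    have h2 : Matrix.vecMul v (hw p g (ff l)) ⟨j, hj⟩ =
        ∑ k : Fin g, v k * (X ^ j * ff l ^ m).coeff (p * ((k : ℕ) + 1) - 1) := by
      show ∑ k : Fin g, v k * (X ^ (j + 1) * ff l ^ ((p - 1) / 2)).coeff (p * ((k : ℕ) + 1)) = _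
      refine Finset.sum_congr rfl fun k _ => ?_
      congr 1
      have h3 : 1 ≤ p * ((k : ℕ) + 1) := Nat.mul_pos hp.pos (Nat.succ_pos _)
      rw [hmm]
      conv_lhs => rw [← Nat.sub_add_cancel h3, pow_succ', mul_assoc, coeff_X_mul]
    rw [h2, ← hVR] at h1
    have h4 : V * (X ^ j * ff l ^ m) = X ^ j * G := by
      rw [hG]; ring
    have h5 : p * g - 1 = p * g - 1 - j + j := by omega
    rw [h4, h5, coeff_X_pow_mul] at h1
    have h6 : p * g - 1 - j + j - j = p * g - 1 - j := by omega
    exact h1
  refine ⟨V, P, L, rfl, rfl, hVd, hGe, ?_, ?_, hVR, ?_⟩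
  · rw [natDegree_le_iff_coeff_eq_zero]
    intro e he
    by_cases h1 : e < p * g
    · rw [hLc e h1]
      have h2 := hzero (p * g - 1 - e) (by omega)
      have h3 : p * g - 1 - (p * g - 1 - e) = e := by omega
      rw [h3] at h2
      exact h2
    · exact coeff_eq_zero_of_natDegree_lt (by omega)
  · rw [hP, natDegree_divByMonic _ hmon, natDegree_X_pow]
    have h1 : 1 ≤ m * (2 * g + 1) := Nat.mul_pos hm1 (by omega)
    omega
  · intro hv0
    have hV0 : V ≠ 0 := by
      intro h0
      apply hv0
      funext k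
      have h1 := hVR (X ^ (p * ((k : ℕ) + 1) - 1))
      rw [h0, zero_mul, coeff_zero] at h1
      rw [Finset.sum_eq_single k] at h1
      · simpa using h1.symm
      · intro j _ hj
        rw [coeff_X_pow, if_neg, mul_zero]
        intro h2
        apply hj
        have h3 : 1 ≤ p * ((k : ℕ) + 1) := Nat.mul_pos hp.pos (Nat.succ_pos _)
        have h4 : 1 ≤ p * ((j : ℕ) + 1) := Nat.mul_pos hp.pos (Nat.succ_pos _)
        have h5 : p * ((j : ℕ) + 1) = p * ((k : ℕ) + 1) := by omega
        have h6 := Nat.eq_of_mul_eq_mul_left hp.pos h5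
        exact Fin.ext (by omega)
      · intro h2
        exact absurd (Finset.mem_univ _) h2
    rw [natDegree_mul hV0 (pow_ne_zero _ (ff_monic l).ne_zero), hfm]
    have h1 : p * g - g = m * (2 * g) := by
      rw [hm]
      have : (2 * m + 1) * g = m * (2 * g) + g := by ring
      omega
    rw [h1]
    have h2 : m * (2 * g) ≤ m * (2 * g + 1) := Nat.mul_le_mul_left _ (by omega)
    omega

/-- the element of the right kernel -/
noncomputable def qq {n : ℕ} (m : ℕ) (l : Fin n → K) (P : K[X]) : K[X] :=
  ff l * derivative P - C (m : K) * derivative (ff l) * P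

theorem qq_eq {g m : ℕ} (hm : p = 2 * m + 1) (l : Fin (2 * g + 1) → K) {V P L : K[X]}
    (hV : derivative V = 0) (hG : V * ff l ^ m = X ^ (p * g) * P + L) :
    X ^ (p * g) * qq m l P = C (m : K) * derivative (ff l) * L - ff l * derivative L := by
  have hp := (Fact.out : p.Prime)
  have hm1 : 1 ≤ m := by
    have := hp.two_le
    omega
  have h1 : ff l * derivative (V * ff l ^ m) = C (m : K) * derivative (ff l) * (V * ff l ^ m) := by
    rw [derivative_mul, hV, zero_mul, zero_add, derivative_pow]
    have h2 : ff l * (V * (C (m : K) * ff l ^ (m - 1) * derivative (ff l))) =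
        C (m : K) * derivative (ff l) * (V * (ff l ^ (m - 1) * ff l)) := by ring
    rw [h2, ← pow_succ, Nat.sub_add_cancel hm1]
  have h3 : derivative (X ^ (p * g) * P + L) = X ^ (p * g) * derivative P + derivative L := by
    rw [derivative_add, derivative_mul, derivative_X_pow]
    push_cast
    rw [CharP.cast_eq_zero K p]
    simp
  rw [hG, h3] at h1
  unfold qq
  linear_combination h1

theorem qq_degree {g m : ℕ} (hg : 1 ≤ g) (hm : p = 2 * m + 1) (l : Fin (2 * g + 1) → K) {V P L : K[X]}
    (hV : derivative V = 0) (hG : V * ff l ^ m = X ^ (p * g) * P + L)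
    (hL : L.natDegree ≤ p * g - g - 1) : (qq m l P).degree < g := by
  have hp := (Fact.out : p.Prime)
  have hp3 : 3 ≤ p := by
    have := hp.two_le
    omega
  by_cases h0 : qq m l P = 0
  · rw [h0, degree_zero]
    exact WithBot.bot_lt_coe _
  have h1 := congrArg natDegree (qq_eq hm l hV hG)
  rw [natDegree_mul (pow_ne_zero _ X_ne_zero) h0, natDegree_X_pow] at h1
  have hpg : 3 * g ≤ p * g := Nat.mul_le_mul_right _ hp3
  have hf := ff_deg l
  have hf' : (derivative (ff l)).natDegree ≤ 2 * g := by
    refine (natDegree_derivative_le _).trans ?_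
    rw [hf]
    omega
  have h2 : (C (m : K) * derivative (ff l) * L).natDegree ≤ p * g + g - 1 := by
    refine natDegree_mul_le.trans ?_
    have h3 : (C (m : K) * derivative (ff l)).natDegree ≤ 2 * g := (natDegree_C_mul_le _ _).trans hf'
    omega
  have h4 : (ff l * derivative L).natDegree ≤ p * g + g - 1 := by
    refine natDegree_mul_le.trans ?_
    have h5 := natDegree_derivative_le L
    omega
  have h6 := natDegree_sub_le (C (m : K) * derivative (ff l) * L) (ff l * derivative L)
  rw [← h1] at h6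
  have h7 : (qq m l P).natDegree < g := by
    have := max_le h2 h4
    omega
  rw [degree_eq_natDegree h0]
  exact_mod_cast h7

theorem qq_exact {g m : ℕ} (hm : p = 2 * m + 1) (l : Fin (2 * g + 1) → K) (P : K[X]) (k : ℕ) :
    (qq m l P * ff l ^ m).coeff (p * (k + 1) - 1) = 0 := by
  have hp := (Fact.out : p.Prime)
  have h1 : qq m l P * ff l ^ m = derivative (P * ff l ^ (m + 1)) := by
    rw [derivative_mul, derivative_pow, Nat.add_sub_cancel]
    have h2 : (C ((m + 1 : ℕ) : K) : K[X]) = -C (m : K) := by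
      rw [← C_neg]
      congr 1
      have := two_m (K := K) hm
      push_cast
      linear_combination this
    rw [h2]
    unfold qq
    ring
  have h3 : 1 ≤ p * (k + 1) := Nat.mul_pos hp.pos (Nat.succ_pos _)
  rw [h1, coeff_derivative, Nat.sub_add_cancel h3]
  have h4 : (((p * (k + 1) - 1 : ℕ) : K) + 1) = ((p * (k + 1) : ℕ) : K) := by
    rw [← Nat.cast_succ, Nat.succ_eq_add_one, Nat.sub_add_cancel h3]
  rw [h4]
  push_cast
  rw [CharP.cast_eq_zero K p]
  simp

theorem P_zero {g m : ℕ} (hm : p = 2 * m + 1) {l : Fin (2 * g + 1) → K}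
    (hl : Function.Injective l) {P : K[X]} (hP : P.natDegree < m * (2 * g + 1))
    (h : qq m l P = 0) : P = 0 := by
  classical
  by_contra hP0
  have hp := (Fact.out : p.Prime)
  have hmult : ∀ i, m ≤ P.rootMultiplicity (l i) := by
    intro i
    obtain ⟨P₁, hP₁, hnd⟩ := exists_eq_pow_rootMultiplicity_mul_and_not_dvd P hP0 (l i)
    set μ := P.rootMultiplicity (l i) with hμ
    rw [dvd_iff_isRoot, IsRoot.def] at hnd
    have h1 : (X - C (l i)) ^ μ * ((C (μ : K) * fi l i * P₁) + (X - C (l i)) * (fi l i * derivative P₁) -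
        C (m : K) * ((fi l i) + (X - C (l i)) * derivative (fi l i)) * P₁) = 0 := by
      have h2 : qq m l P = (X - C (l i)) ^ μ * ((C (μ : K) * fi l i * P₁) +
          (X - C (l i)) * (fi l i * derivative P₁) -
          C (m : K) * ((fi l i) + (X - C (l i)) * derivative (fi l i)) * P₁) := by
        unfold qq
        rw [← fi_mul l i]
        conv_lhs => rw [hP₁]
        rw [derivative_mul, derivative_mul, derivative_X_sub_C, derivative_pow, derivative_X_sub_C]
        rcases Nat.eq_zero_or_pos μ with h0 | h0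
        · rw [h0]
          simp
          ring
        · have e : (X - C (l i) : K[X]) ^ μ = (X - C (l i)) * (X - C (l i)) ^ (μ - 1) := by
            rw [← pow_succ', Nat.sub_add_cancel h0]
          rw [e]
          ring
      rw [← h2, h]
    have h3 := (mul_eq_zero.1 h1).resolve_left (pow_ne_zero _ (X_sub_C_ne_zero _))
    have h4 := congrArg (eval (l i)) h3
    simp only [eval_add, eval_sub, eval_mul, eval_C, eval_X, sub_self, zero_mul, add_zero,
      eval_zero] at h4
    have h5 : ((μ : K) - m) * ((fi l i).eval (l i) * P₁.eval (l i)) = 0 := by linear_combination h4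
    have h6 := (mul_eq_zero.1 h5).resolve_right (mul_ne_zero (fi_eval hl i) hnd)
    have h7 : ((μ : ℕ) : K) = ((m : ℕ) : K) := sub_eq_zero.1 h6
    rw [CharP.natCast_eq_natCast K p] at h7
    unfold Nat.ModEq at h7
    have h8 : m % p = m := Nat.mod_eq_of_lt (by omega)
    rw [h8] at h7
    rw [← h7]
    exact Nat.mod_le _ _
  have hdvd : ff l ^ m ∣ P := by
    unfold ff
    rw [← Finset.prod_pow]
    refine Finset.prod_dvd_of_coprime ?_ ?_
    · intro i _ j _ hij
      exact (isCoprime_X_sub_C_of_isUnit_sub (sub_ne_zero.2 (hl.ne hij)).isUnit).pow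
    · intro i _
      exact (pow_dvd_pow _ (hmult i)).trans (pow_rootMultiplicity_dvd P (l i))
  have h1 := natDegree_le_of_dvd hdvd hP0
  rw [(ff_monic l).natDegree_pow, ff_deg] at h1
  omega

/-- **The value of the functional of the left kernel.** -/
theorem pairing {g m : ℕ} (hg : 1 ≤ g) (hm : p = 2 * m + 1) (l : Fin (2 * g + 1) → K) {V P L : K[X]}
    (hG : V * ff l ^ m = X ^ (p * g) * P + L) (hL : L.natDegree ≤ p * g - g - 1)
    (i : Fin (2 * g + 1)) {Q : K[X]} (hQ : Q.degree < g) :
    (V * (Q * (ff l ^ (m - 1) * fi l i))).coeff (p * g - 1) = Q.eval (l i) * P.eval (l i) := by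
  have hp := (Fact.out : p.Prime)
  have hm1 : 1 ≤ m := by
    have := hp.two_le
    omega
  have hpg : 3 * g ≤ p * g := Nat.mul_le_mul_right _ (by omega)
  set B : K[X] := V * (ff l ^ (m - 1) * fi l i) with hB
  have h1 : (X - C (l i)) * B = X ^ (p * g) * P + L := by
    rw [← hG, hB]
    have e : (X - C (l i)) * (V * (ff l ^ (m - 1) * fi l i)) =
        V * (ff l ^ (m - 1) * ((X - C (l i)) * fi l i)) := by ring
    rw [e, fi_mul, ← pow_succ, Nat.sub_add_cancel hm1]
  obtain ⟨P₁, hP₁⟩ : (X - C (l i)) ∣ P - C (P.eval (l i)) := by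
    rw [dvd_iff_isRoot]
    simp
  set D : K[X] := B - X ^ (p * g) * P₁ with hD
  have h2 : (X - C (l i)) * D = X ^ (p * g) * C (P.eval (l i)) + L := by
    rw [hD]
    linear_combination h1 + X ^ (p * g) * hP₁
  have h3 : ∀ e, D.coeff e = l i * D.coeff (e + 1) +
      (X ^ (p * g) * C (P.eval (l i)) + L).coeff (e + 1) := by
    intro e
    have h4 : (X * D - C (l i) * D).coeff (e + 1) =
        (X ^ (p * g) * C (P.eval (l i)) + L).coeff (e + 1) := by rw [← sub_mul, h2]
    rw [coeff_sub, coeff_X_mul, coeff_C_mul] at h4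
    rw [← h4]
    ring
  have hDn : D.natDegree ≤ p * g - 1 := by
    by_cases hD0 : D = 0
    · rw [hD0, natDegree_zero]; omega
    have h4 := congrArg natDegree h2
    rw [natDegree_mul (X_sub_C_ne_zero _) hD0, natDegree_X_sub_C] at h4
    have h5 : (X ^ (p * g) * C (P.eval (l i)) + L).natDegree ≤ p * g := by
      refine (natDegree_add_le _ _).trans (max_le ?_ (by omega))
      refine natDegree_mul_le.trans ?_
      rw [natDegree_X_pow, natDegree_C]
      omega
    omega
  have h6 : ∀ j, j ≤ g → D.coeff (p * g - 1 - j) = l i ^ j * P.eval (l i) := by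
    intro j
    induction j with
    | zero =>
      intro _
      have e : p * g - 1 + 1 = p * g := by omega
      rw [Nat.sub_zero, h3, e, coeff_eq_zero_of_natDegree_lt (by omega : D.natDegree < p * g),
        coeff_add, coeff_X_pow_mul', if_pos le_rfl, Nat.sub_self, coeff_C_zero,
        coeff_eq_zero_of_natDegree_lt (by omega : L.natDegree < p * g)]
      ring
    | succ j ih =>
      intro hj
      have e : p * g - 1 - (j + 1) + 1 = p * g - 1 - j := by omega
      rw [h3, e, ih (by omega), coeff_add, coeff_X_pow_mul', if_neg (by omega),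
        coeff_eq_zero_of_natDegree_lt (by omega : L.natDegree < p * g - 1 - j)]
      ring
  have hQn : Q.natDegree < g := by
    by_cases h0 : Q = 0
    · rw [h0, natDegree_zero]; omega
    · exact (natDegree_lt_iff_degree_lt h0).2 hQ
  have h7 : V * (Q * (ff l ^ (m - 1) * fi l i)) = X ^ (p * g) * (Q * P₁) + Q * D := by
    rw [hD, hB]; ring
  rw [h7, coeff_add, coeff_X_pow_mul', if_neg (by omega), zero_add, coeff_mul,
    Finset.Nat.sum_antidiagonal_eq_sum_range_succ_mk, eval_eq_sum_range' hQn, Finset.sum_mul]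
  have h8 : Finset.range g ⊆ Finset.range (p * g - 1).succ := by
    intro x hx
    rw [Finset.mem_range] at hx ⊢
    omega
  rw [← Finset.sum_subset h8]
  · refine Finset.sum_congr rfl fun j hj => ?_
    rw [Finset.mem_range] at hj
    simp only
    rw [h6 j (by omega)]
    ring
  · intro j _ hj
    rw [Finset.mem_range, not_lt] at hj
    simp only
    rw [coeff_eq_zero_of_natDegree_lt (by omega : Q.natDegree < j), zero_mul]

end

end Pool.Agent.R410.SQ
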