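import Pool.Agent.R410.SQ.Bij

/-!
# The order of vanishing of the determinant of the Hasse-Witt matrix along a line
-/

set_option autoImplicit false
set_option linter.all false

open Polynomial

namespace Pool.Agent.R410.SQ

open Pool.Agent.R410.OR

/-- the polynomial with the given roots -/
noncomputable def fR {R : Type*} [CommRing R] {n : ℕ} (l : Fin n → R) : R[X] := ∏ i, (X - C (l i))

section
variable {R : Type*} [CommRing R]

theorem prod_expand {ι : Type*} [DecidableEq ι] (s : Finset ι) (a b : ι → R) (t : R) :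
    ∃ E, ∏ i ∈ s, (a i - t * b i) =
      ∏ i ∈ s, a i - t * ∑ i ∈ s, b i * ∏ j ∈ s.erase i, a j + t ^ 2 * E := by
  induction s using Finset.induction_on with
  | empty => exact ⟨0, by simp⟩
  | insert i0 s hi ih =>
    obtain ⟨E, hE⟩ := ih
    have h1 : ∑ i ∈ insert i0 s, b i * ∏ j ∈ (insert i0 s).erase i, a j =
        b i0 * ∏ j ∈ s, a j + a i0 * ∑ i ∈ s, b i * ∏ j ∈ s.erase i, a j := by
      rw [Finset.sum_insert hi, Finset.erase_insert hi, Finset.mul_sum]
      congr 1
      refine Finset.sum_congr rfl fun i his => ?_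
      have h2 : i0 ≠ i := fun h => hi (h ▸ his)
      rw [Finset.erase_insert_of_ne h2, Finset.prod_insert]
      · ring
      · exact fun h => hi (Finset.mem_of_mem_erase h)
    rw [Finset.prod_insert hi, Finset.prod_insert hi, hE, h1]
    exact ⟨b i0 * ∑ i ∈ s, b i * ∏ j ∈ s.erase i, a j + a i0 * E - t * b i0 * E, by ring⟩

theorem pow_expand (A B E t : R) {m : ℕ} (hm : 1 ≤ m) :
    ∃ E', (A - t * B + t ^ 2 * E) ^ m = A ^ m + t * (-(m : R) * (A ^ (m - 1) * B)) + t ^ 2 * E' := by
  obtain ⟨k, hk⟩ := binomExpansion (X ^ m : R[X]) A (- t * B + t ^ 2 * E)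
  rw [eval_pow, eval_X, eval_pow, eval_X, derivative_X_pow, eval_mul, eval_C, eval_pow, eval_X] at hk
  refine ⟨(m : R) * A ^ (m - 1) * E + k * (- B + t * E) ^ 2, ?_⟩
  have h1 : A - t * B + t ^ 2 * E = A + (- t * B + t ^ 2 * E) := by ring
  rw [h1, hk]
  push_cast
  ring

end

section
variable {K : Type*} [Field K] {p : ℕ} [Fact p.Prime] [CharP K p]

/-- the determinant along the line -/
noncomputable def dl {n : ℕ} (p g : ℕ) (l h : Fin n → K) : K[X] :=
  (hw p g (fR fun i => C (l i) + X * C (h i))).det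

omit [Fact p.Prime] [CharP K p] in
theorem hw_line {g m n : ℕ} (hm : p = 2 * m + 1) (hm1 : 1 ≤ m) (l h : Fin n → K) :
    ∃ E : Matrix (Fin g) (Fin g) K[X], ∀ i j,
      hw p g (fR fun i => C (l i) + X * C (h i)) i j =
        C (hw p g (ff l) i j) + X * C (m1 p m l h i j) + X ^ 2 * E i j := by
  classical
  have hmm : (p - 1) / 2 = m := by omega
  obtain ⟨E, hE⟩ := prod_expand (R := K[X][X]) Finset.univ
    (fun i => (X - C (C (l i)))) (fun i => C (C (h i))) (C X)
  have h1 : fR (fun i => C (l i) + X * C (h i)) =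
      ∏ i : Fin n, ((X - C (C (l i))) - C X * C (C (h i))) := by
    unfold fR
    refine Finset.prod_congr rfl fun i _ => ?_
    rw [C_add, C_mul]
    ring
  have h2 : ∏ i : Fin n, (X - C (C (l i)) : K[X][X]) = (ff l).map C := by
    unfold ff
    rw [Polynomial.map_prod]
    refine Finset.prod_congr rfl fun i _ => ?_
    rw [Polynomial.map_sub, map_X, map_C]
  have h3 : ∑ i : Fin n, (C (C (h i)) : K[X][X]) * ∏ j ∈ Finset.univ.erase i, (X - C (C (l j))) =
      (∑ a, C (h a) * fi l a).map C := by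
    rw [Polynomial.map_sum]
    refine Finset.sum_congr rfl fun i _ => ?_
    unfold fi
    rw [Polynomial.map_mul, map_C, Polynomial.map_prod]
    congr 1
    refine Finset.prod_congr rfl fun j _ => ?_
    rw [Polynomial.map_sub, map_X, map_C]
  rw [h2, h3, ← h1] at hE
  obtain ⟨E', hE'⟩ := pow_expand ((ff l).map C) ((∑ a, C (h a) * fi l a).map C) E (C X) hm1
  rw [← hE] at hE'
  have h4 : ((ff l).map C) ^ m + C X * (-(m : K[X][X]) * (((ff l).map C) ^ (m - 1) *
      (∑ a, C (h a) * fi l a).map C)) + (C X) ^ 2 * E' =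
      (ff l ^ m).map C + C X * ((-C (m : K) * (ff l ^ (m - 1) * ∑ a, C (h a) * fi l a)).map C) +
        C (X ^ 2) * E' := by
    rw [Polynomial.map_mul, Polynomial.map_neg, map_C, Polynomial.map_mul, Polynomial.map_pow,
      Polynomial.map_pow, C_pow]
    congr 4
  rw [h4] at hE'
  refine ⟨Matrix.of fun i j => (X ^ ((j : ℕ) + 1) * E').coeff (p * ((i : ℕ) + 1)), fun i j => ?_⟩
  show (X ^ ((j : ℕ) + 1) * (fR fun i => C (l i) + X * C (h i)) ^ ((p - 1) / 2)).coeff
    (p * ((i : ℕ) + 1)) = C ((X ^ ((j : ℕ) + 1) * ff l ^ ((p - 1) / 2)).coeff (p * ((i : ℕ) + 1))) +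
      X * C ((X ^ ((j : ℕ) + 1) *
    (-C (m : K) * (ff l ^ (m - 1) * ∑ a, C (h a) * fi l a))).coeff (p * ((i : ℕ) + 1))) +
      X ^ 2 * (X ^ ((j : ℕ) + 1) * E').coeff (p * ((i : ℕ) + 1))
  rw [hmm, hE']
  have h5 : (X ^ ((j : ℕ) + 1) * ((ff l ^ m).map C +
      C X * ((-C (m : K) * (ff l ^ (m - 1) * ∑ a, C (h a) * fi l a)).map C) + C (X ^ 2) * E') :
      K[X][X]) = (X ^ ((j : ℕ) + 1) * ff l ^ m).map C +
      C X * ((X ^ ((j : ℕ) + 1) *
        (-C (m : K) * (ff l ^ (m - 1) * ∑ a, C (h a) * fi l a))).map C) +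
      C (X ^ 2) * (X ^ ((j : ℕ) + 1) * E') := by
    rw [Polynomial.map_mul (p := X ^ ((j : ℕ) + 1)), Polynomial.map_mul (p := X ^ ((j : ℕ) + 1)),
      Polynomial.map_pow (p := X) , map_X]
    ring
  rw [h5, coeff_add, coeff_add, coeff_C_mul, coeff_C_mul, coeff_map, coeff_map]

/-- the evaluation as a linear map -/
noncomputable def evl {g : ℕ} (x : K) : (Fin g → K) →ₗ[K] K :=
  ∑ j : Fin g, x ^ (j : ℕ) • LinearMap.proj j

omit [Fact p.Prime] [CharP K p] in
theorem evl_eq {g : ℕ} (x : K) (u : Fin g → K) : evl x u = (pv u).eval x := by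
  unfold evl pv
  rw [eval_finset_sum, LinearMap.sum_apply]
  refine Finset.sum_congr rfl fun j _ => ?_
  rw [LinearMap.smul_apply, LinearMap.proj_apply, smul_eq_mul, eval_mul, eval_C, eval_pow, eval_X,
    mul_comm]

/-- **Along a coordinate direction the order is larger than the corank, if the corank is at
least `2`.** -/
theorem line_single {g m : ℕ} (hg : 1 ≤ g) (hm : p = 2 * m + 1) (l : Fin (2 * g + 1) → K)
    {r : ℕ} (hr : Module.finrank K (LinearMap.ker (hw p g (ff l)).mulVecLin) = r) (hr2 : 2 ≤ r)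
    (i : Fin (2 * g + 1)) : X ^ (r + 1) ∣ dl p g l (Pi.single i 1) := by
  classical
  have hm1 : 1 ≤ m := by
    have := (Fact.out : p.Prime).two_le
    omega
  obtain ⟨E, hE⟩ := hw_line (g := g) hm hm1 l (Pi.single i 1)
  unfold dl
  rw [det_order _ E _ _ hE hr]
  set RK := LinearMap.ker (hw p g (ff l)).mulVecLin with hRK
  have h1 : ¬ Function.Injective ((evl (l i)).domRestrict RK) := by
    intro hinj
    have h2 := LinearMap.finrank_le_finrank_of_injective hinj
    rw [hr, Module.finrank_self] at h2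
    omega
  rw [injective_iff_map_eq_zero] at h1
  push Not at h1
  obtain ⟨⟨u, hu⟩, hu1, hu0⟩ := h1
  rw [LinearMap.domRestrict_apply] at hu1
  rw [Ne, Submodule.mk_eq_zero] at hu0
  have huk : (hw p g (ff l)).mulVec u = 0 := by
    rw [hRK, LinearMap.mem_ker, Matrix.mulVecLin_apply] at hu
    exact hu
  refine ⟨u, hu0, huk, ?_⟩
  refine exists_of_left _ _ fun v hv => ?_
  rw [form hg hm l (Pi.single i 1) u v hv, Finset.sum_eq_single i]
  · rw [← evl_eq (l i) u, hu1]
    ring
  · intro a _ ha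
    rw [Pi.single_eq_of_ne ha, zero_mul]
  · intro h
    exact absurd (Finset.mem_univ _) h

/-- **In a suitable direction the order is at most the corank.** -/
theorem line_general {g m : ℕ} (hg : 1 ≤ g) (hm : p = 2 * m + 1) {l : Fin (2 * g + 1) → K}
    (hl : Function.Injective l) {r : ℕ}
    (hr : Module.finrank K (LinearMap.ker (hw p g (ff l)).mulVecLin) = r) :
    ∃ h : Fin (2 * g + 1) → K, ¬ X ^ (r + 1) ∣ dl p g l h := by
  classical
  have hp := (Fact.out : p.Prime)
  have hm1 : 1 ≤ m := by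
    have := hp.two_le
    omega
  -- a minimal set of the branch points which separates the kernel
  let good : Finset (Fin (2 * g + 1)) → Prop := fun J =>
    ∀ u : Fin g → K, (hw p g (ff l)).mulVec u = 0 → (∀ a ∈ J, (pv u).eval (l a) = 0) → u = 0
  have huniv : good Finset.univ := by
    intro u _ hu
    have h1 : pv u = 0 := by
      refine eq_zero_of_natDegree_lt_card_of_eval_eq_zero (pv u) hl
        (fun a => hu a (Finset.mem_univ a)) ?_
      rw [Fintype.card_fin]
      by_cases h0 : pv u = 0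
      · rw [h0, natDegree_zero]; omega
      · have := (natDegree_lt_iff_degree_lt h0).2 (pv_degree u)
        omega
    funext j
    rw [← pv_coeff u j, h1, coeff_zero]
    rfl
  obtain ⟨J, hJ, hmin⟩ := WellFounded.has_min (wellFounded_lt (α := Finset (Fin (2 * g + 1))))
    {J | good J} ⟨Finset.univ, huniv⟩
  refine ⟨fun a => if a ∈ J then (derivative (ff l)).eval (l a) else 0, ?_⟩
  obtain ⟨E, hE⟩ := hw_line (g := g) hm hm1 l
    (fun a => if a ∈ J then (derivative (ff l)).eval (l a) else 0)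
  unfold dl
  rw [det_order _ E _ _ hE hr]
  rintro ⟨u, hu0, hu, c, hc⟩
  -- a point of the set at which `u` does not vanish
  have h1 : ∃ a ∈ J, (pv u).eval (l a) ≠ 0 := by
    by_contra hcon
    push Not at hcon
    exact hu0 (hJ u hu hcon)
  obtain ⟨a, haJ, ha⟩ := h1
  have h2 : ¬ good (J.erase a) := fun h => hmin _ h (Finset.erase_ssubset haJ)
  have h3 : ∃ w : Fin g → K, (hw p g (ff l)).mulVec w = 0 ∧
      (∀ b ∈ J.erase a, (pv w).eval (l b) = 0) ∧ w ≠ 0 := by
    by_contra hcon
    push Not at hcon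
    exact h2 fun w hw1 hw2 => hcon w hw1 hw2
  obtain ⟨w, hw1, hw2, hw0⟩ := h3
  have hwa : (pv w).eval (l a) ≠ 0 := by
    intro h0
    apply hw0
    refine hJ w hw1 fun b hb => ?_
    by_cases hba : b = a
    · rw [hba]
      exact h0
    · exact hw2 b (Finset.mem_erase.2 ⟨hba, hb⟩)
  obtain ⟨v, hv, hvw⟩ := surj hg hm hl w hw1
  have h4 := form hg hm l (fun a => if a ∈ J then (derivative (ff l)).eval (l a) else 0) u v hv
  have h5 : ∑ k, v k * (m1 p m l
      (fun a => if a ∈ J then (derivative (ff l)).eval (l a) else 0)).mulVec u k = 0 := by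
    rw [hc]
    have : ∑ k, v k * (hw p g (ff l)).mulVec c k = dotProduct v ((hw p g (ff l)).mulVec c) := rfl
    rw [this, Matrix.dotProduct_mulVec, hv, zero_dotProduct]
  rw [h5, Finset.mul_sum] at h4
  have h6 : ∀ b, -(m : K) * ((if b ∈ J then (derivative (ff l)).eval (l b) else 0) *
      ((pv u).eval (l b) * (pp p g m l v).eval (l b))) =
      if b = a then (pv u).eval (l a) * (pv w).eval (l a) else 0 := by
    intro b
    have h7 : (pv w).eval (l b) = -(m : K) * (derivative (ff l)).eval (l b) *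
        (pp p g m l v).eval (l b) := by
      rw [← hvw]
      unfold qq
      have h8 : (ff l).eval (l b) = 0 := by
        rw [← fi_mul l b]
        simp
      rw [eval_sub, eval_mul, h8, eval_mul, eval_mul, eval_C]
      ring
    by_cases hbJ : b ∈ J
    · rw [if_pos hbJ]
      by_cases hba : b = a
      · rw [if_pos hba, ← hba, h7]
        ring
      · rw [if_neg hba]
        have h9 := hw2 b (Finset.mem_erase.2 ⟨hba, hbJ⟩)
        rw [h7] at h9
        linear_combination (pv u).eval (l b) * h9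
    · rw [if_neg hbJ]
      have hba : b ≠ a := fun h => hbJ (h ▸ haJ)
      rw [if_neg hba]
      ring
  simp only [h6] at h4
  rw [Finset.sum_ite_eq' Finset.univ a, if_pos (Finset.mem_univ _)] at h4
  exact mul_ne_zero ha hwa h4.symm

end

end Pool.Agent.R410.SQ
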