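import Mathlib

/-!
# The minors of a matrix to first order
-/

set_option autoImplicit false
set_option linter.all false

open Polynomial

namespace Pool.Agent.R410.SQ

section
variable {R : Type*} [CommRing R] {g t : ℕ}

theorem cb_row (A : Matrix (Fin g) (Fin t) R) (c : R)
    (h : ∀ I : Fin t → Fin g, c ∣ (A.submatrix I id).det) (P : Matrix (Fin t) (Fin g) R) :
    c ∣ (P * A).det := by
  classical
  have h1 : (P * A).det = Matrix.detRowAlternating.toMultilinearMap
      (fun i => ∑ a : Fin g, P i a • A a) := by
    have h2 : (fun i => ∑ a : Fin g, P i a • A a) = (P * A : Matrix (Fin t) (Fin t) R) := by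
      funext i j
      rw [Finset.sum_apply, Matrix.mul_apply]
      rfl
    rw [h2]
    rfl
  rw [h1, MultilinearMap.map_sum]
  refine Finset.dvd_sum fun r _ => ?_
  rw [MultilinearMap.map_smul_univ]
  exact Dvd.dvd.mul_left (h r) _

theorem cb (N : Matrix (Fin g) (Fin g) R) (c : R)
    (h : ∀ I J : Fin t → Fin g, c ∣ (N.submatrix I J).det) (P : Matrix (Fin t) (Fin g) R)
    (Q : Matrix (Fin g) (Fin t) R) : c ∣ (P * N * Q).det := by
  classical
  rw [← Matrix.det_transpose, Matrix.transpose_mul]
  refine cb_row _ c (fun J => ?_) _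
  rw [← Matrix.det_transpose]
  have h1 : ((P * N).transpose.submatrix J id).transpose = P * N.submatrix id J := by
    ext i j
    simp [Matrix.mul_apply, mul_comm]
  rw [h1]
  exact cb_row _ c (fun I => h I J) P

end

section
variable {K : Type*} [Field K] {g : ℕ}

theorem rank_mul_ge (A B : Matrix (Fin g) (Fin g) K) : A.rank + B.rank ≤ (A * B).rank + g := by
  classical
  have hA := LinearMap.finrank_range_add_finrank_ker A.mulVecLin
  have hB := LinearMap.finrank_range_add_finrank_ker B.mulVecLin
  have hAB := LinearMap.finrank_range_add_finrank_ker (A * B).mulVecLin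
  rw [Module.finrank_fin_fun] at hA hB hAB
  have eA : A.rank = Module.finrank K (LinearMap.range A.mulVecLin) := rfl
  have eB : B.rank = Module.finrank K (LinearMap.range B.mulVecLin) := rfl
  have eAB : (A * B).rank = Module.finrank K (LinearMap.range (A * B).mulVecLin) := rfl
  have hmem : ∀ x ∈ LinearMap.ker (A * B).mulVecLin, B.mulVecLin x ∈ LinearMap.ker A.mulVecLin := by
    intro x hx
    rw [LinearMap.mem_ker, Matrix.mulVecLin_apply] at hx ⊢
    rw [Matrix.mulVecLin_apply, Matrix.mulVec_mulVec]
    exact hx
  set ψ := B.mulVecLin.restrict hmem with hψ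
  have h1 := LinearMap.finrank_range_add_finrank_ker ψ
  have h2 : Module.finrank K (LinearMap.range ψ) ≤ Module.finrank K (LinearMap.ker A.mulVecLin) :=
    Submodule.finrank_le _
  have h3 : Module.finrank K (LinearMap.ker ψ) ≤ Module.finrank K (LinearMap.ker B.mulVecLin) := by
    let θ : LinearMap.ker ψ →ₗ[K] LinearMap.ker B.mulVecLin :=
      { toFun := fun x => ⟨x.1.1, by
          have := x.2
          rw [LinearMap.mem_ker] at this ⊢
          exact congrArg Subtype.val this⟩
        map_add' := fun _ _ => rfl
        map_smul' := fun _ _ => rfl }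
    refine LinearMap.finrank_le_finrank_of_injective (f := θ) ?_
    intro x y hxy
    apply Subtype.ext
    apply Subtype.ext
    have := congrArg Subtype.val hxy
    exact this
  omega

theorem rank_normal (F : Type*) [Field F] {r : ℕ} (e : Fin g ≃ Fin r ⊕ Fin (Fintype.card (Fin g) - r)) :
    ((Matrix.fromBlocks (1 : Matrix (Fin r) (Fin r) F) 0 0 0).submatrix e e).rank =
      Fintype.card {i : Fin r ⊕ Fin (Fintype.card (Fin g) - r) // i.isLeft} := by
  classical
  rw [Matrix.rank_submatrix]
  have h1 : (Matrix.fromBlocks (1 : Matrix (Fin r) (Fin r) F) 0 0 0) =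
      Matrix.diagonal (Sum.elim (fun _ : Fin r => (1 : F))
        (fun _ : Fin (Fintype.card (Fin g) - r) => 0)) := by
    rw [← Matrix.diagonal_one, ← Matrix.diagonal_zero, Matrix.fromBlocks_diagonal]
  rw [h1, Matrix.rank_diagonal]
  refine Fintype.card_congr (Equiv.subtypeEquivRight fun i => ?_)
  rcases i with i | i <;> simp

theorem rank_map_hom {L : Type*} [Field L] (φ : K →+* L) (A : Matrix (Fin g) (Fin g) K) :
    (A.map φ).rank = A.rank := by
  classical
  obtain ⟨V, U, e, hV, hU, h⟩ := Matrix.exists_rank_normal_form A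
  have h2 : (A.map φ).rank = Fintype.card
      {i : Fin A.rank ⊕ Fin (Fintype.card (Fin g) - A.rank) // i.isLeft} := by
    rw [← rank_normal L e]
    have h3 : V.map φ * A.map φ * U.map φ =
        (Matrix.fromBlocks (1 : Matrix (Fin A.rank) (Fin A.rank) L) 0 0 0).submatrix e e := by
      rw [← Matrix.map_mul, ← Matrix.map_mul, h]
      ext i j
      rw [Matrix.map_apply, Matrix.submatrix_apply, Matrix.submatrix_apply]
      rcases e i with a | a <;> rcases e j with b | b <;> simp [Matrix.one_apply, apply_ite φ]
    rw [← h3, Matrix.rank_mul_eq_left_of_isUnit_det, Matrix.rank_mul_eq_right_of_isUnit_det]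
    · have := (Matrix.isUnit_iff_isUnit_det _).1 hV
      rw [← RingHom.mapMatrix_apply, ← RingHom.map_det]
      exact this.map φ
    · have := (Matrix.isUnit_iff_isUnit_det _).1 hU
      rw [← RingHom.mapMatrix_apply, ← RingHom.map_det]
      exact this.map φ
  have h4 : A.rank = Fintype.card
      {i : Fin A.rank ⊕ Fin (Fintype.card (Fin g) - A.rank) // i.isLeft} := by
    rw [← rank_normal K e, ← h, Matrix.rank_mul_eq_left_of_isUnit_det _ _ ((Matrix.isUnit_iff_isUnit_det _).1 hU),
      Matrix.rank_mul_eq_right_of_isUnit_det _ _ ((Matrix.isUnit_iff_isUnit_det _).1 hV)]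
  rw [h2, ← h4]

end

end Pool.Agent.R410.SQ
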