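import Pool.Agent.R410.SQ.Gen

/-!
# Reducedness, and the multiplicity at a point
-/

set_option autoImplicit false
set_option linter.all false

open Polynomial

namespace Pool.Agent.R410.SQ

open Pool.Agent.R410.OR

/-- a divisor which is squarefree away from `d` is reduced away from `d` -/
theorem isReduced_of_sq {R : Type*} [CommRing R] [IsDomain R] [UniqueFactorizationMonoid R]
    {D d : R} (hD : D ≠ 0) (h : ∀ q : R, Irreducible q → q ^ 2 ∣ D → q ∣ d) :
    IsReduced (Localization.Away d ⧸
      Ideal.span {algebraMap R (Localization.Away d) D}) := by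
  classical
  rw [← Ideal.isRadical_iff_quotient_reduced]
  set S := Localization.Away d with hS
  have hu : IsUnit (algebraMap R S d) := IsLocalization.Away.algebraMap_isUnit d
  -- the divisibility in the unique factorization domain
  have key : ∀ (F : R) (n M : ℕ), D ∣ d ^ M * F ^ n → ∃ M', D ∣ d ^ M' * F := by
    intro F n M hdiv
    have h1 : ∀ E : R, E ∣ D → ∃ M', E ∣ d ^ M' * F := by
      intro E
      induction E using UniqueFactorizationMonoid.induction_on_prime with
      | h₁ => intro h0; exact absurd (zero_dvd_iff.1 h0) hD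
      | h₂ x hx => intro _; exact ⟨0, hx.dvd⟩
      | h₃ E q hE hq ih =>
        intro hqE
        obtain ⟨M', c, hc⟩ := ih ((dvd_mul_left E q).trans hqE)
        by_cases hqd : q ∣ d
        · refine ⟨M' + 1, ?_⟩
          have h2 : d ^ (M' + 1) * F = d * (d ^ M' * F) := by ring
          rw [h2]
          exact mul_dvd_mul hqd ⟨c, hc⟩
        · have hqF : q ∣ F := by
            have h2 := ((dvd_mul_right q E).trans hqE).trans hdiv
            rcases hq.dvd_or_dvd h2 with h3 | h3
            · exact absurd (hq.dvd_of_dvd_pow h3) hqd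
            · exact hq.dvd_of_dvd_pow h3
          have hqc : q ∣ E * c := by
            rw [← hc]
            exact hqF.mul_left _
          have hqE' : ¬ q ∣ E := by
            intro h2
            apply hqd
            refine h q hq.irreducible ?_
            rw [pow_two]
            exact (mul_dvd_mul_left q h2).trans hqE
          have hqc' := (hq.dvd_or_dvd hqc).resolve_left hqE'
          refine ⟨M', ?_⟩
          rw [hc, mul_comm q E]
          exact mul_dvd_mul_left E hqc'
    exact h1 D dvd_rfl
  have hmem : ∀ F : R, algebraMap R S F ∈ Ideal.span {algebraMap R S D} ↔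
      ∃ M, D ∣ d ^ M * F := by
    intro F
    rw [Ideal.mem_span_singleton]
    constructor
    · rintro ⟨y, hy⟩
      obtain ⟨N, z, hz⟩ := IsLocalization.Away.surj d y
      have h1 : algebraMap R S (d ^ N * F) = algebraMap R S (D * z) := by
        rw [map_mul, map_mul, map_pow, hy, ← hz]
        ring
      obtain ⟨M, hM⟩ := IsLocalization.Away.exists_of_eq d h1
      refine ⟨M + N, ?_⟩
      have h2 : d ^ (M + N) * F = D * (d ^ M * z) := by
        rw [pow_add, mul_assoc, hM]
        ring
      rw [h2]
      exact dvd_mul_right _ _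
    · rintro ⟨M, c, hc⟩
      have h1 := congrArg (algebraMap R S) hc
      rw [map_mul, map_mul, map_pow] at h1
      have h2 : algebraMap R S D ∣ (algebraMap R S d) ^ M * algebraMap R S F := ⟨_, h1⟩
      exact ((hu.pow M).dvd_mul_left).1 h2
  rintro x ⟨n, hx⟩
  obtain ⟨N, F, hF⟩ := IsLocalization.Away.surj d x
  have h1 : algebraMap R S (F ^ n) ∈ Ideal.span {algebraMap R S D} := by
    rw [map_pow, ← hF, mul_pow]
    exact Ideal.mul_mem_right _ _ hx
  obtain ⟨M, hM⟩ := (hmem _).1 h1
  have h2 := (hmem F).2 (key F n M hM)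
  rw [← hF, Ideal.mem_span_singleton] at h2
  rw [Ideal.mem_span_singleton]
  exact ((hu.pow N).dvd_mul_right).1 h2

/-- the order of the determinant along a line is at least the corank -/
theorem det_order_ge {K : Type*} [Field K] {g : ℕ} (M E : Matrix (Fin g) (Fin g) K[X])
    (M0 M1 : Matrix (Fin g) (Fin g) K)
    (hM : ∀ i j, M i j = C (M0 i j) + X * C (M1 i j) + X ^ 2 * E i j) {r : ℕ}
    (hr : Module.finrank K (LinearMap.ker M0.mulVecLin) = r) : X ^ r ∣ M.det := by
  classical
  obtain ⟨b, S, hS, hbS, hrepr⟩ := exists_basis (LinearMap.ker M0.mulVecLin)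
  rw [hr] at hS
  have hb0 : ∀ j ∈ S, M0.mulVec (b j) = 0 := by
    intro j hj
    have := hbS j hj
    rw [LinearMap.mem_ker, Matrix.mulVecLin_apply] at this
    exact this
  set P : Matrix (Fin g) (Fin g) K := Matrix.of fun i j => b j i with hP
  have hPdet : P.det ≠ 0 := by
    intro h0
    obtain ⟨a, ha0, ha⟩ := Matrix.exists_mulVec_eq_zero_iff.2 h0
    apply ha0
    have h1 : ∑ j, a j • b j = 0 := by
      funext i
      have := congrFun ha i
      simp only [Matrix.mulVec, dotProduct, hP, Matrix.of_apply, Pi.zero_apply] at this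
      rw [Finset.sum_apply]
      simp only [Pi.smul_apply, smul_eq_mul, Pi.zero_apply]
      rw [← this]
      exact Finset.sum_congr rfl fun j _ => mul_comm _ _
    funext j
    exact Fintype.linearIndependent_iff.1 b.linearIndependent a h1 j
  set N : Matrix (Fin g) (Fin g) K[X] := Matrix.of fun i j =>
    if j ∈ S then C (M1.mulVec (b j) i) + X * ∑ k, E i k * C (b j k)
    else C (M0.mulVec (b j) i) + X * (C (M1.mulVec (b j) i) + X * ∑ k, E i k * C (b j k)) with hN
  have hprod : M * P.map C = Matrix.of fun i j => (if j ∈ S then X else 1) * N i j := by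
    ext1 i j
    rw [Matrix.mul_apply]
    have h1 : ∑ k, M i k * (P.map C) k j = C (M0.mulVec (b j) i) + X * C (M1.mulVec (b j) i) +
        X ^ 2 * ∑ k, E i k * C (b j k) := by
      simp only [Matrix.mulVec, dotProduct, map_sum, C_mul, Finset.mul_sum]
      rw [← Finset.sum_add_distrib, ← Finset.sum_add_distrib]
      refine Finset.sum_congr rfl fun k _ => ?_
      rw [hM, Matrix.map_apply, hP, Matrix.of_apply]
      ring
    rw [h1, Matrix.of_apply, hN, Matrix.of_apply]
    by_cases hj : j ∈ S
    · rw [if_pos hj, if_pos hj, hb0 j hj, Pi.zero_apply, C_0]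
      ring
    · rw [if_neg hj, if_neg hj]
      ring
  have hdet : M.det * C P.det = X ^ r * N.det := by
    have h1 := congrArg Matrix.det hprod
    rw [Matrix.det_mul, Matrix.det_mul_row] at h1
    have h2 : (P.map C).det = C P.det := by
      rw [RingHom.map_det]
      rfl
    rw [h2] at h1
    rw [h1, Finset.prod_ite, Finset.prod_const, Finset.prod_const_one, mul_one]
    congr 2
    rw [← hS]
    congr 1
    ext j
    simp
  have hu : IsUnit (C P.det) := isUnit_C.2 hPdet.isUnit
  rw [← hu.dvd_mul_right, hdet]
  exact dvd_mul_right _ _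

theorem finrank_ker {K : Type*} [Field K] {g : ℕ} (M0 : Matrix (Fin g) (Fin g) K) :
    Module.finrank K (LinearMap.ker M0.mulVecLin) = g - M0.rank := by
  have h1 := LinearMap.finrank_range_add_finrank_ker M0.mulVecLin
  rw [Module.finrank_fin_fun] at h1
  have h2 : M0.rank = Module.finrank K (LinearMap.range M0.mulVecLin) := rfl
  omega

section
variable {k : Type*} [Field k]

theorem dd_ne_zero {p : ℕ} [Fact p.Prime] [CharP k p] [Infinite k] (hp2 : p ≠ 2) {g : ℕ} (hg : 1 ≤ g) :
    dd k p g ≠ 0 := by
  classical
  obtain ⟨m, hm⟩ := (Fact.out : p.Prime).odd_of_ne_two hp2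
  let a : Fin (2 * g + 1) → k := fun i => Infinite.natEmbedding k i
  have ha : Function.Injective a := fun i j hij => Fin.ext ((Infinite.natEmbedding k).injective hij)
  obtain ⟨h, hh⟩ := line_general hg hm ha rfl
  intro h0
  apply hh
  have h1 := sub_dd (p := p) (g := g) (MvPolynomial.eval a) h
  rw [h0, map_zero] at h1
  simp only [MvPolynomial.eval_X] at h1
  rw [← h1]
  exact dvd_zero _

theorem sub_eval {n : ℕ} (a h : Fin n → k) (F : MvPolynomial (Fin n) k) :
    sub (MvPolynomial.eval a) h F = MvPolynomial.aeval (fun i => C (a i) + X * C (h i)) F := by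
  have h1 : sub (MvPolynomial.eval a) h =
      (MvPolynomial.aeval (R := k) (fun i => (C (a i) + X * C (h i) : k[X]))).toRingHom := by
    refine MvPolynomial.ringHom_ext (fun c => ?_) fun i => ?_
    · rw [sub_C, MvPolynomial.eval_C]
      simp
    · rw [sub_X, MvPolynomial.eval_X]
      simp
  exact DFunLike.congr_fun h1 F

/-- **The multiplicity of the determinant at a point is the corank.** -/
theorem mult {p : ℕ} [Fact p.Prime] [CharP k p] (hp2 : p ≠ 2) {g : ℕ} (hg : 1 ≤ g)
    {a : Fin (2 * g + 1) → k} (ha : Function.Injective a) :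
    (∀ h : Fin (2 * g + 1) → k, (X : k[X]) ^ (g - (hw p g (fR a)).rank) ∣
      MvPolynomial.aeval (fun i => (C (a i) + X * C (h i) : k[X])) (dd k p g)) ∧
    ∃ h : Fin (2 * g + 1) → k, ¬ (X : k[X]) ^ (g - (hw p g (fR a)).rank + 1) ∣
      MvPolynomial.aeval (fun i => (C (a i) + X * C (h i) : k[X])) (dd k p g) := by
  classical
  have hp := (Fact.out : p.Prime)
  obtain ⟨m, hm⟩ := hp.odd_of_ne_two hp2
  have hm1 : 1 ≤ m := by
    have := hp.two_le
    omega
  have hd : ∀ h : Fin (2 * g + 1) → k,
      MvPolynomial.aeval (fun i => (C (a i) + X * C (h i) : k[X])) (dd k p g) = dl p g a h := by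
    intro h
    rw [← sub_eval, sub_dd]
    simp only [MvPolynomial.eval_X]
  have hr : Module.finrank k (LinearMap.ker (hw p g (ff a)).mulVecLin) =
      g - (hw p g (fR a)).rank := finrank_ker _
  constructor
  · intro h
    rw [hd]
    obtain ⟨E, hE⟩ := hw_line (g := g) hm hm1 a h
    exact det_order_ge _ E _ _ hE hr
  · obtain ⟨h, hh⟩ := line_general hg hm ha hr
    refine ⟨h, ?_⟩
    rw [hd]
    exact hh

end

end Pool.Agent.R410.SQ
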