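import Pool.Agent.R410.SQ.Red
import Pool.Agent.R410.SQ.Minors

/-!
# The strata of the `p`-rank at the points of `a`-number one
-/

set_option autoImplicit false
set_option linter.all false

open Polynomial

namespace Pool.Agent.R410.SQ

open Pool.Agent.R410.OR

section
variable {K : Type*} [Field K] {g : ℕ}

/-- **The first order condition on the minors.** -/
theorem first_order (N E : Matrix (Fin g) (Fin g) K[X]) (N0 N1 : Matrix (Fin g) (Fin g) K)
    (hN : ∀ i j, N i j = C (N0 i j) + X * C (N1 i j) + X ^ 2 * E i j) {s : ℕ} (hs : N0.rank = s)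
    (h : ∀ I J : Fin (s + 1) → Fin g, X ^ 2 ∣ (N.submatrix I J).det)
    {u v : Fin g → K} (hu : N0.mulVec u = 0) (hv : Matrix.vecMul v N0 = 0) :
    ∑ k, v k * N1.mulVec u k = 0 := by
  classical
  have hex : ∃ (V U : Matrix (Fin g) (Fin g) K) (e : Fin g ≃ Fin s ⊕ Fin (Fintype.card (Fin g) - s)),
      V * N0 * U = (Matrix.fromBlocks 1 0 0 0).submatrix e e := by
    subst hs
    obtain ⟨V, U, e, hV, hU, hD⟩ := Matrix.exists_rank_normal_form N0
    exact ⟨V, U, e, hD⟩
  obtain ⟨V, U, e, hD⟩ := hex
  let P : Matrix (Fin (s + 1)) (Fin g) K :=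
    Matrix.of (Fin.snoc (α := fun _ => Fin g → K) (fun i : Fin s => V (e.symm (Sum.inl i))) v)
  let T : Matrix (Fin (s + 1)) (Fin g) K :=
    Matrix.of (Fin.snoc (α := fun _ => Fin g → K)
      (fun j : Fin s => fun k => U k (e.symm (Sum.inl j))) u)
  have hPl : P (Fin.last s) = v := by
    show (Fin.snoc (α := fun _ => Fin g → K) (fun i : Fin s => V (e.symm (Sum.inl i))) v)
      (Fin.last s) = v
    rw [Fin.snoc_last]
  have hTl : T (Fin.last s) = u := by
    show (Fin.snoc (α := fun _ => Fin g → K) (fun j : Fin s => fun k => U k (e.symm (Sum.inl j))) u)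
      (Fin.last s) = u
    rw [Fin.snoc_last]
  have hPc : ∀ i : Fin s, P i.castSucc = V (e.symm (Sum.inl i)) := by
    intro i
    show (Fin.snoc (α := fun _ => Fin g → K) (fun i : Fin s => V (e.symm (Sum.inl i))) v)
      i.castSucc = _
    rw [Fin.snoc_castSucc]
  have hTc : ∀ j : Fin s, T j.castSucc = fun k => U k (e.symm (Sum.inl j)) := by
    intro j
    show (Fin.snoc (α := fun _ => Fin g → K) (fun j : Fin s => fun k => U k (e.symm (Sum.inl j))) u)
      j.castSucc = _
    rw [Fin.snoc_castSucc]
  have hform : ∀ (A : Matrix (Fin g) (Fin g) K) (i j : Fin (s + 1)),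
      (P * A * T.transpose) i j = dotProduct (P i) (A.mulVec (T j)) := by
    intro A i j
    rw [Matrix.mul_assoc, Matrix.mul_apply]
    rfl
  set M0 := P * N0 * T.transpose with hM0
  set M1 := P * N1 * T.transpose with hM1
  have h0l : ∀ i, M0 i (Fin.last s) = 0 := by
    intro i
    rw [hM0, hform, hTl, hu, dotProduct_zero]
  have hl0 : ∀ j, M0 (Fin.last s) j = 0 := by
    intro j
    rw [hM0, hform, hPl, Matrix.dotProduct_mulVec, hv, zero_dotProduct]
  have hcc : ∀ i j : Fin s, M0 i.castSucc j.castSucc = if i = j then 1 else 0 := by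
    intro i j
    rw [hM0, hform, hPc, hTc]
    have h1 : dotProduct (V (e.symm (Sum.inl i)))
        (N0.mulVec fun k => U k (e.symm (Sum.inl j))) =
        (V * N0 * U) (e.symm (Sum.inl i)) (e.symm (Sum.inl j)) := by
      rw [Matrix.mul_assoc, Matrix.mul_apply]
      rfl
    rw [h1, hD, Matrix.submatrix_apply, Equiv.apply_symm_apply, Equiv.apply_symm_apply,
      Matrix.fromBlocks_apply₁₁, Matrix.one_apply]
  have hmv : ∀ w : Fin (s + 1) → K, ∀ i : Fin s, M0.mulVec w i.castSucc = w i.castSucc := by
    intro w i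
    show ∑ j, M0 i.castSucc j * w j = _
    rw [Fin.sum_univ_castSucc, h0l, zero_mul, add_zero]
    simp only [hcc, ite_mul, one_mul, zero_mul]
    rw [Finset.sum_ite_eq Finset.univ i, if_pos (Finset.mem_univ _)]
  have hker : Module.finrank K (LinearMap.ker M0.mulVecLin) = 1 := by
    rw [finrank_eq_one_iff']
    have hmem : (Pi.single (Fin.last s) 1 : Fin (s + 1) → K) ∈ LinearMap.ker M0.mulVecLin := by
      rw [LinearMap.mem_ker, Matrix.mulVecLin_apply]
      funext i
      rw [Matrix.mulVec_single_one]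
      exact h0l i
    refine ⟨⟨Pi.single (Fin.last s) 1, hmem⟩, ?_, ?_⟩
    · intro h0
      have := congrFun (congrArg Subtype.val h0) (Fin.last s)
      simp at this
    · rintro ⟨w, hw⟩
      refine ⟨w (Fin.last s), ?_⟩
      apply Subtype.ext
      rw [LinearMap.mem_ker, Matrix.mulVecLin_apply] at hw
      funext i
      show w (Fin.last s) * (Pi.single (Fin.last s) 1 : Fin (s + 1) → K) i = w i
      refine Fin.lastCases ?_ (fun i => ?_) i
      · simp
      · have h1 := congrFun hw i.castSucc
        rw [hmv] at h1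
        rw [h1, Pi.single_eq_of_ne (Fin.castSucc_ne_last i), mul_zero]
        rfl
  have hexp : ∀ i j, (P.map C * N * T.transpose.map C) i j =
      C (M0 i j) + X * C (M1 i j) + X ^ 2 * (P.map C * E * T.transpose.map C) i j := by
    have h1 : N = N0.map C + (X : K[X]) • N1.map C + (X ^ 2 : K[X]) • E := by
      ext1 i j
      rw [hN]
      rfl
    have h2 : P.map C * N * T.transpose.map C =
        M0.map C + (X : K[X]) • M1.map C + (X ^ 2 : K[X]) • (P.map C * E * T.transpose.map C) := by
      rw [h1, Matrix.mul_add, Matrix.mul_add, Matrix.add_mul, Matrix.add_mul, Matrix.mul_smul,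
        Matrix.mul_smul, Matrix.smul_mul, Matrix.smul_mul, hM0, hM1, Matrix.map_mul, Matrix.map_mul,
        Matrix.map_mul, Matrix.map_mul]
    intro i j
    rw [h2]
    rfl
  have hdvd : X ^ (1 + 1) ∣ (P.map C * N * T.transpose.map C).det := cb N (X ^ 2) h _ _
  obtain ⟨w, hw0, hw, c, hc⟩ := (det_order _ _ _ _ hexp hker).1 hdvd
  have hwc : ∀ i : Fin s, w i.castSucc = 0 := by
    intro i
    rw [← hmv w i, hw]
    rfl
  have hwl : w (Fin.last s) ≠ 0 := by
    intro h0
    apply hw0
    funext i
    refine Fin.lastCases h0 (fun i => hwc i) i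
  have h3 := congrFun hc (Fin.last s)
  have h4 : M0.mulVec c (Fin.last s) = 0 := by
    show ∑ j, M0 (Fin.last s) j * c j = 0
    simp only [hl0, zero_mul, Finset.sum_const_zero]
  have h5 : M1.mulVec w (Fin.last s) = M1 (Fin.last s) (Fin.last s) * w (Fin.last s) := by
    show ∑ j, M1 (Fin.last s) j * w j = _
    rw [Fin.sum_univ_castSucc]
    simp only [hwc, mul_zero, Finset.sum_const_zero, zero_add]
  rw [h4, h5] at h3
  have h6 := (mul_eq_zero.1 h3).resolve_right hwl
  rw [hM1, hform, hPl, hTl] at h6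
  exact h6

end

/-- the matrix of the iterate of the Frobenius-linear map `v ↦ v^(p) M` -/
noncomputable def it {R : Type*} [CommRing R] {g : ℕ} (p : ℕ) (M : Matrix (Fin g) (Fin g) R) :
    ℕ → Matrix (Fin g) (Fin g) R
  | 0 => 1
  | n + 1 => ((it p M n).map fun x => x ^ p) * M

theorem it_map {R S : Type*} [CommRing R] [CommRing S] {g : ℕ} (p : ℕ)
    (M : Matrix (Fin g) (Fin g) R) (φ : R →+* S) (n : ℕ) :
    (it p M n).map φ = it p (M.map φ) n := by
  induction n with
  | zero =>
    unfold it
    rw [Matrix.map_one _ (map_zero φ) (map_one φ)]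
  | succ n ih =>
    unfold it
    rw [Matrix.map_mul, ← ih]
    congr 1
    ext i j
    simp

section
variable {K : Type*} [Field K] {p : ℕ} [Fact p.Prime] [CharP K p] {g : ℕ}

theorem rank_frob (A : Matrix (Fin g) (Fin g) K) : (A.map fun x => x ^ p).rank = A.rank :=
  rank_map_hom (frobenius K p) A

theorem rank_it (M0 : Matrix (Fin g) (Fin g) K) (h : g ≤ M0.rank + 1) (n : ℕ) :
    g ≤ (it p M0 n).rank + n := by
  classical
  induction n with
  | zero =>
    unfold it
    rw [Matrix.rank_one]
    simp
  | succ n ih =>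
    have h1 := rank_mul_ge ((it p M0 n).map fun x => x ^ p) M0
    rw [rank_frob] at h1
    show g ≤ (((it p M0 n).map fun x => x ^ p) * M0).rank + (n + 1)
    omega

/-- the iterate along a line -/
theorem it_line (M E : Matrix (Fin g) (Fin g) K[X]) (M0 M1 : Matrix (Fin g) (Fin g) K)
    (hM : ∀ i j, M i j = C (M0 i j) + X * C (M1 i j) + X ^ 2 * E i j) (n : ℕ) :
    ∃ E' : Matrix (Fin g) (Fin g) K[X], ∀ i j, it p M (n + 1) i j =
      C (it p M0 (n + 1) i j) + X * C ((((it p M0 n).map fun x => x ^ p) * M1) i j) +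
        X ^ 2 * E' i j := by
  classical
  have hp := (Fact.out : p.Prime).two_le
  have hM0 : M.map (evalRingHom 0) = M0 := by
    ext i j
    rw [Matrix.map_apply, hM]
    simp
  have h0 : (it p M n).map (evalRingHom 0) = it p M0 n := by
    rw [it_map, hM0]
  have h1 : ∀ i j, ∃ c : K[X], (it p M n i j) ^ p = C ((it p M0 n i j) ^ p) + X ^ 2 * c := by
    intro i j
    have h2 : (it p M n i j).coeff 0 = it p M0 n i j := by
      rw [← h0, Matrix.map_apply, coe_evalRingHom, coeff_zero_eq_eval_zero]
    have h3 := X_mul_divX_add (it p M n i j)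
    rw [h2] at h3
    refine ⟨X ^ (p - 2) * (it p M n i j).divX ^ p, ?_⟩
    conv_lhs => rw [← h3]
    rw [add_pow_char, mul_pow, C_pow]
    have h4 : (X : K[X]) ^ p = X ^ 2 * X ^ (p - 2) := by
      rw [← pow_add]
      congr 1
      omega
    rw [h4]
    ring
  choose c hc using h1
  have e1 : (it p M n).map (fun x => x ^ p) =
      ((it p M0 n).map fun x => x ^ p).map C + (X ^ 2 : K[X]) • Matrix.of c := by
    ext1 i j
    rw [Matrix.map_apply, hc]
    rfl
  have e2 : M = M0.map C + (X : K[X]) • M1.map C + (X ^ 2 : K[X]) • E := by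
    ext1 i j
    rw [hM]
    rfl
  set B0 := (it p M0 n).map fun x => x ^ p with hB0
  refine ⟨B0.map C * E + Matrix.of c * M, fun i j => ?_⟩
  have e3 : it p M (n + 1) = (B0 * M0).map C + (X : K[X]) • (B0 * M1).map C +
      (X ^ 2 : K[X]) • (B0.map C * E + Matrix.of c * M) := by
    show ((it p M n).map fun x => x ^ p) * M = _
    rw [e1, Matrix.add_mul, Matrix.smul_mul]
    conv_lhs => arg 1; rw [e2]
    rw [Matrix.mul_add, Matrix.mul_add, Matrix.mul_smul, Matrix.mul_smul, Matrix.map_mul,
      Matrix.map_mul, smul_add]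
    abel
  rw [e3]
  rfl

end

section
variable {k : Type*} [Field k]

theorem sub_coeff_one' {n : ℕ} (a h : Fin n → k) (F : MvPolynomial (Fin n) k) :
    (sub (MvPolynomial.eval a) h F).coeff 1 =
      ∑ i, h i * MvPolynomial.eval a (MvPolynomial.pderiv i F) := by
  classical
  induction F using MvPolynomial.induction_on with
  | C c =>
    rw [sub_C, coeff_C, if_neg one_ne_zero]
    simp
  | add F G hF hG =>
    rw [map_add, coeff_add, hF, hG, ← Finset.sum_add_distrib]
    refine Finset.sum_congr rfl fun i _ => ?_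
    rw [map_add, map_add]
    ring
  | mul_X F j hF =>
    rw [map_mul, sub_X]
    have h1 : (sub (MvPolynomial.eval a) h F * (C (MvPolynomial.eval a (MvPolynomial.X j)) +
        X * C (h j))).coeff 1 =
        (sub (MvPolynomial.eval a) h F).coeff 1 * MvPolynomial.eval a (MvPolynomial.X j) +
        (sub (MvPolynomial.eval a) h F).coeff 0 * h j := by
      rw [mul_add, coeff_add, coeff_mul_C, mul_left_comm, coeff_X_mul, coeff_mul_C]
    rw [h1, sub_coeff_zero, hF, Finset.sum_mul]
    have h2 : ∀ i, h i * MvPolynomial.eval a (MvPolynomial.pderiv i (F * MvPolynomial.X j)) =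
        h i * MvPolynomial.eval a (MvPolynomial.pderiv i F) *
          MvPolynomial.eval a (MvPolynomial.X j) +
        (if i = j then MvPolynomial.eval a F * h j else 0) := by
      intro i
      rw [MvPolynomial.pderiv_mul, map_add, map_mul, map_mul, MvPolynomial.pderiv_X]
      by_cases hij : i = j
      · subst hij
        rw [Pi.single_eq_same, if_pos rfl, map_one]
        ring
      · rw [Pi.single_eq_of_ne (Ne.symm hij), if_neg hij, map_zero]
        ring
    simp only [h2]
    rw [Finset.sum_add_distrib, Finset.sum_ite_eq' Finset.univ j, if_pos (Finset.mem_univ _)]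

end

end Pool.Agent.R410.SQ
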