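import Pool.Agent.R410.SQ.Strata

/-!
# The strata of the `p`-rank at the points of `a`-number one, the main theorem
-/

set_option autoImplicit false
set_option linter.all false
set_option maxHeartbeats 400000

open Polynomial

namespace Pool.Agent.R410.SQ

open Pool.Agent.R410.OR

theorem hw_map {R S : Type*} [CommRing R] [CommRing S] (p g : ℕ) (φ : R →+* S) (f : R[X]) :
    (hw p g f).map φ = hw p g (f.map φ) := by
  ext i j
  change φ ((X ^ ((j : ℕ) + 1) * f ^ ((p - 1) / 2)).coeff (p * ((i : ℕ) + 1))) =
    (X ^ ((j : ℕ) + 1) * (f.map φ) ^ ((p - 1) / 2)).coeff (p * ((i : ℕ) + 1))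
  rw [← map_X φ, ← Polynomial.map_pow, ← Polynomial.map_pow, ← Polynomial.map_mul, coeff_map]

theorem fR_map {R S : Type*} [CommRing R] [CommRing S] {n : ℕ} (φ : R →+* S) (l : Fin n → R) :
    (fR l).map φ = fR fun i => φ (l i) := by
  unfold fR
  rw [Polynomial.map_prod]
  refine Finset.prod_congr rfl fun i _ => ?_
  rw [Polynomial.map_sub, map_X, map_C]

theorem minor_map {R S : Type*} [CommRing R] [CommRing S] {p g n m t : ℕ} (φ : R →+* S)
    (l : Fin m → R) (I J : Fin t → Fin g) :
    φ (((it p (hw p g (fR l)) n).submatrix I J).det) =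
      ((it p (hw p g (fR fun i => φ (l i))) n).submatrix I J).det := by
  rw [RingHom.map_det, RingHom.mapMatrix_apply, ← Matrix.submatrix_map, it_map, hw_map, fR_map]

section
variable {k : Type*} [Field k] {p : ℕ} [Fact p.Prime] [CharP k p]

/-- the linear map of the products -/
noncomputable def phi {g n : ℕ} (a : Fin n → k) (P : k[X]) : (Fin g → k) →ₗ[k] (Fin n → k) :=
  LinearMap.pi fun i => P.eval (a i) • evl (a i)

omit [Fact p.Prime] [CharP k p] in
theorem phi_apply {g n : ℕ} (a : Fin n → k) (P : k[X]) (u : Fin g → k) (i : Fin n) :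
    phi a P u i = P.eval (a i) * (pv u).eval (a i) := by
  show P.eval (a i) * evl (a i) u = _
  rw [evl_eq]

/-- **The rank of the Jacobian matrix of the minors of the iterate of the Hasse-Witt map.** -/
theorem strata (hp2 : p ≠ 2) {g n : ℕ} (hg : 1 ≤ g) (hn : 1 ≤ n) (hng : n ≤ g)
    {a : Fin (2 * g + 1) → k} (ha : Function.Injective a)
    (h1 : g ≤ (hw p g (fR a)).rank + 1) (h2 : (it p (hw p g (fR a)) n).rank ≤ g - n) :
    n ≤ Module.finrank k (Submodule.span k (Set.range
      fun IJ : (Fin (g - n + 1) → Fin g) × (Fin (g - n + 1) → Fin g) => fun i =>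
        MvPolynomial.eval a (MvPolynomial.pderiv i
          (((it p (hw p g (fR fun i => MvPolynomial.X i)) n).submatrix IJ.1 IJ.2).det)))) := by
  classical
  have hp := (Fact.out : p.Prime)
  obtain ⟨m, hm⟩ := hp.odd_of_ne_two hp2
  have hm1 : 1 ≤ m := by
    have := hp.two_le
    omega
  obtain ⟨n, rfl⟩ : ∃ n', n = n' + 1 := ⟨n - 1, by omega⟩
  set M0 := hw p g (fR a) with hM0
  set B0 := (it p M0 n).map fun x => x ^ p with hB0
  have hN0 : it p M0 (n + 1) = B0 * M0 := rfl
  have hrN : (it p M0 (n + 1)).rank = g - (n + 1) := by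
    have := rank_it (p := p) M0 h1 (n + 1)
    omega
  have hrB : g ≤ B0.rank + n := by
    rw [hB0, rank_frob]
    exact rank_it M0 h1 n
  -- an element of the left kernel of the iterate
  have hv : ∃ v, Matrix.vecMul v (it p M0 (n + 1)) = 0 ∧ Matrix.vecMul v B0 ≠ 0 := by
    by_contra hcon
    push Not at hcon
    have hle : LinearMap.ker (it p M0 (n + 1)).vecMulLinear ≤ LinearMap.ker B0.vecMulLinear := by
      intro v hv
      rw [LinearMap.mem_ker, Matrix.vecMulLinear_apply] at hv ⊢
      exact hcon v hv
    have h3 := Submodule.finrank_mono hle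
    rw [finrank_left, finrank_left, finrank_ker, finrank_ker] at h3
    omega
  obtain ⟨v, hv0, hvB⟩ := hv
  set v0 := Matrix.vecMul v B0 with hv0def
  have hv0k : Matrix.vecMul v0 M0 = 0 := by
    rw [hv0def, Matrix.vecMul_vecMul, ← hN0]
    exact hv0
  obtain ⟨W, P, L, hW, hP, hWd, hG, hL, hPn, hR, hnd⟩ := exists_data hg hm a v0 hv0k
  have hqd := qq_degree hg hm a hWd hG hL
  have hq0 : qq m a P ≠ 0 := by
    intro h0
    have h3 := P_zero hm ha hPn h0
    have h4 := hnd hvB
    rw [hG, h3, mul_zero, zero_add] at h4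
    have hpg : 3 * g ≤ p * g := Nat.mul_le_mul_right _ (by omega)
    omega
  have hqe : ∀ i, (qq m a P).eval (a i) = -(m : k) * (derivative (ff a)).eval (a i) * P.eval (a i) := by
    intro i
    unfold qq
    have h8 : (ff a).eval (a i) = 0 := by
      rw [← fi_mul a i]
      simp
    rw [eval_sub, eval_mul, h8, eval_mul, eval_mul, eval_C]
    ring
  -- the linear map is injective
  have hinj : Function.Injective (phi a P : (Fin g → k) →ₗ[k] (Fin (2 * g + 1) → k)) := by
    rw [injective_iff_map_eq_zero]
    intro u hu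
    have h3 : pv u * qq m a P = 0 := by
      refine eq_zero_of_natDegree_lt_card_of_eval_eq_zero _ ha (fun i => ?_) ?_
      · have h4 := congrFun hu i
        rw [phi_apply] at h4
        rw [eval_mul, hqe]
        have h5 : P.eval (a i) * (pv u).eval (a i) = 0 := h4
        linear_combination (-(m : k) * (derivative (ff a)).eval (a i)) * h5
      · rw [Fintype.card_fin]
        refine lt_of_le_of_lt natDegree_mul_le ?_
        have h4 : (qq m a P).natDegree < g := (natDegree_lt_iff_degree_lt hq0).2 hqd
        have h5 : (pv u).natDegree ≤ g := by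
          by_cases h0 : pv u = 0
          · rw [h0, natDegree_zero]; omega
          · exact ((natDegree_lt_iff_degree_lt h0).2 (pv_degree u)).le
        omega
    have h4 := (mul_eq_zero.1 h3).resolve_right hq0
    funext j
    rw [← pv_coeff u j, h4, coeff_zero]
    rfl
  set Γ := Submodule.span k (Set.range
      fun IJ : (Fin (g - (n + 1) + 1) → Fin g) × (Fin (g - (n + 1) + 1) → Fin g) => fun i =>
        MvPolynomial.eval a (MvPolynomial.pderiv i
          (((it p (hw p g (fR fun i => MvPolynomial.X i)) (n + 1)).submatrix IJ.1 IJ.2).det))) with hΓ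
  set RK := LinearMap.ker (it p M0 (n + 1)).mulVecLin with hRK
  have hle : RK.map (phi a P) ≤ Γ := by
    rintro _ ⟨u, hu, rfl⟩
    have hu' : (it p M0 (n + 1)).mulVec u = 0 := by
      have hu2 : u ∈ RK := hu
      rw [hRK, LinearMap.mem_ker, Matrix.mulVecLin_apply] at hu2
      exact hu2
    by_contra hnot
    obtain ⟨ψ, hψ, hΓψ⟩ := Submodule.exists_le_ker_of_notMem hnot
    set h : Fin (2 * g + 1) → k := fun i => ψ (Pi.single i 1) with hh
    have hψe : ∀ x : Fin (2 * g + 1) → k, ψ x = ∑ i, h i * x i := by
      intro x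
      conv_lhs => rw [← Finset.univ_sum_single x, map_sum]
      refine Finset.sum_congr rfl fun i _ => ?_
      have : (Pi.single i (x i) : Fin (2 * g + 1) → k) = x i • Pi.single i 1 := by
        rw [← Pi.single_smul, smul_eq_mul, mul_one]
      rw [this, map_smul, smul_eq_mul, mul_comm]
    obtain ⟨E, hE⟩ := hw_line (g := g) hm hm1 a h
    obtain ⟨E', hE'⟩ := it_line (p := p) _ E M0 (m1 p m a h) hE n
    have hmin : ∀ I J : Fin (g - (n + 1) + 1) → Fin g, X ^ 2 ∣
        ((it p (hw p g (fR fun i => C (a i) + X * C (h i))) (n + 1)).submatrix I J).det := by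
      intro I J
      have hsm : ((it p (hw p g (fR fun i => C (a i) + X * C (h i))) (n + 1)).submatrix I J).det =
          sub (MvPolynomial.eval a) h (((it p (hw p g (fR fun i => MvPolynomial.X i))
            (n + 1)).submatrix I J).det) := by
        rw [minor_map]
        simp only [sub_X, MvPolynomial.eval_X]
      rw [hsm, X_pow_dvd_iff]
      intro d hd
      interval_cases d
      · rw [sub_coeff_zero]
        rw [minor_map]
        simp only [MvPolynomial.eval_X]
        by_contra hdet
        have h5 := Matrix.rank_of_isUnit _ ((Matrix.isUnit_iff_isUnit_det _).2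
          (isUnit_iff_ne_zero.2 hdet))
        have h6 := Matrix.rank_submatrix_le (it p M0 (n + 1)) I J
        have h6' : ((it p (hw p g (fR fun i => a i)) (n + 1)).submatrix I J).rank ≤
            (it p M0 (n + 1)).rank := h6
        rw [Fintype.card_fin] at h5
        omega
      · rw [sub_coeff_one', ← hψe]
        have h3 := hΓψ (Submodule.subset_span (Set.mem_range_self (I, J)))
        exact h3
    have h7 := first_order _ E' _ _ hE' hrN hmin hu' hv0
    have h8 : ∑ j, v j * (B0 * m1 p m a h).mulVec u j =
        ∑ j, v0 j * (m1 p m a h).mulVec u j := by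
      have e1 : ∑ j, v j * (B0 * m1 p m a h).mulVec u j =
          dotProduct v ((B0 * m1 p m a h).mulVec u) := rfl
      have e2 : ∑ j, v0 j * (m1 p m a h).mulVec u j = dotProduct v0 ((m1 p m a h).mulVec u) := rfl
      rw [e1, e2, ← Matrix.mulVec_mulVec, Matrix.dotProduct_mulVec]
    rw [← hB0, h8, form hg hm a h u v0 hv0k, ← hP] at h7
    have hm0 : (m : k) ≠ 0 := by
      rw [Ne, CharP.cast_eq_zero_iff k p]
      intro hd
      have := Nat.le_of_dvd (by omega) hd
      omega
    apply hψ
    rw [hψe]
    have h9 := (mul_eq_zero.1 h7).resolve_left (neg_ne_zero.2 hm0)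
    rw [← h9]
    refine Finset.sum_congr rfl fun i _ => ?_
    rw [phi_apply]
    ring
  have h10 := Submodule.finrank_mono hle
  have h11 : Module.finrank k RK = Module.finrank k (RK.map (phi a P)) :=
    (Submodule.equivMapOfInjective _ hinj RK).finrank_eq
  have h12 : Module.finrank k RK = g - (it p M0 (n + 1)).rank := finrank_ker _
  rw [hrN] at h12
  omega

end

end Pool.Agent.R410.SQ
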